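import Pool.Agent.H692R3.Geom

/-! Circles of the Euclidean plane and blocks; the lower bound. -/

namespace Pool.Agent.H692R3

open Finset Pool.Agent.Helper543.Melchior

/-- the Euclidean plane -/
abbrev Plane := EuclideanSpace ℝ (Fin 2)

/-- the circles (of positive radius) passing through at least three points of `P` -/
def circlesThrough (P : Finset Plane) : Set (Set Plane) :=
  {C | (∃ o : Plane, ∃ r : ℝ, 0 < r ∧ C = Metric.sphere o r) ∧
    3 ≤ (C ∩ (P : Set Plane)).ncard}

/-- the number of circles passing through at least three points of `P` -/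
noncomputable def circleCount (P : Finset Plane) : ℕ := (circlesThrough P).ncard

/-- the points of `P` are neither all on a line nor all on a circle -/
def Admissible (P : Finset Plane) : Prop :=
  ¬ Collinear ℝ (P : Set Plane) ∧
    ¬ ∃ o : Plane, ∃ r : ℝ, 0 < r ∧ (P : Set Plane) ⊆ Metric.sphere o r

/-- the least number of circles determined by an admissible set of `n` points -/
noncomputable def minCircles (n : ℕ) : ℕ :=
  sInf {k | ∃ P : Finset Plane, P.card = n ∧ Admissible P ∧ circleCount P = k}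

noncomputable section

open scoped Classical

/-- power of `w` with respect to the circle of centre `o` and radius `r` -/
def pw (o : Pt) (r : ℝ) (w : Pt) : ℝ := (w.1 - o.1) ^ 2 + (w.2 - o.2) ^ 2 - r ^ 2

lemma pw_G (o : Pt) (r : ℝ) (x y z w : Pt) : G x y z w =
    pw o r w * cr x y z - pw o r z * cr x y w + pw o r y * cr x z w - pw o r x * cr y z w := by
  unfold G pw cr
  ring

lemma circ_cr {o : Pt} {r : ℝ} {x y z : Pt} (hxy : x ≠ y) (hxz : x ≠ z) (hyz : y ≠ z)
    (hx : pw o r x = 0) (hy : pw o r y = 0) (hz : pw o r z = 0) : cr x y z ≠ 0 := by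
  intro h
  obtain ⟨s, h1, h2⟩ := exists_param hxy h
  have e1 : z.1 = x.1 + s * (y.1 - x.1) := by linarith
  have e2 : z.2 = x.2 + s * (y.2 - x.2) := by linarith
  have hn := (nq_pos hxy.symm).ne'
  have key : pw o r z = (1 - s) * pw o r x + s * pw o r y - s * (1 - s) * nq x y := by
    simp only [pw, nq, e1, e2]
    ring
  rw [hx, hy, hz] at key
  have h3 : s * (1 - s) * nq x y = 0 := by linarith
  rcases mul_eq_zero.1 h3 with h4 | h4
  · rcases mul_eq_zero.1 h4 with h5 | h5
    · subst h5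
      apply hxz
      ext <;> linarith
    · have : s = 1 := by linarith
      subst this
      apply hyz
      ext <;> linarith
  · exact hn h4

lemma circ_iff {o : Pt} {r : ℝ} {x y z : Pt} (hxy : x ≠ y) (hxz : x ≠ z) (hyz : y ≠ z)
    (hx : pw o r x = 0) (hy : pw o r y = 0) (hz : pw o r z = 0) (w : Pt) :
    pw o r w = 0 ↔ G x y z w = 0 := by
  have h := circ_cr hxy hxz hyz hx hy hz
  rw [pw_G o r x y z w, hx, hy, hz]
  constructor
  · intro hw; rw [hw]; ring
  · intro hw
    have : pw o r w * cr x y z = 0 := by linarith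
    rcases mul_eq_zero.1 this with h1 | h1
    · exact h1
    · exact absurd h1 h

lemma exists_circ {a b c : Pt} (h : cr a b c ≠ 0) :
    ∃ o : Pt, ∃ r : ℝ, 0 < r ∧ pw o r a = 0 ∧ pw o r b = 0 ∧ pw o r c = 0 := by
  have hab : b ≠ a := by
    rintro rfl
    apply h; simp [cr]
  set o : Pt := (a.1 + ((c.2 - a.2) * nq a b - (b.2 - a.2) * nq a c) / (2 * cr a b c),
    a.2 + ((b.1 - a.1) * nq a c - (c.1 - a.1) * nq a b) / (2 * cr a b c)) with ho
  have hb : nq o b = nq o a := by
    simp only [nq, ho]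
    have : cr a b c ≠ 0 := h
    field_simp
    simp only [cr]
    ring
  have hc : nq o c = nq o a := by
    simp only [nq, ho]
    have : cr a b c ≠ 0 := h
    field_simp
    simp only [cr]
    ring
  have hpos : 0 < nq o a := by
    by_cases hoa : a = o
    · rw [← hb]
      apply nq_pos
      rw [← hoa]; exact hab
    · exact nq_pos hoa
  refine ⟨o, Real.sqrt (nq o a), Real.sqrt_pos.2 hpos, ?_, ?_, ?_⟩
  · simp only [pw, Real.sq_sqrt hpos.le]
    simp only [nq]; ring
  · simp only [pw, Real.sq_sqrt hpos.le]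
    rw [← hb]; simp only [nq]; ring
  · simp only [pw, Real.sq_sqrt hpos.le]
    rw [← hc]; simp only [nq]; ring

/-- coordinates -/
def toPt (x : Plane) : Pt := (x 0, x 1)

lemma toPt_inj : Function.Injective toPt := by
  intro x y h
  simp only [toPt, Prod.mk.injEq] at h
  ext i
  fin_cases i
  · exact h.1
  · exact h.2

/-- the point with given coordinates -/
def ofPt (p : Pt) : Plane := !₂[p.1, p.2]

lemma toPt_ofPt (p : Pt) : toPt (ofPt p) = p := by
  simp [toPt, ofPt]

lemma ofPt_toPt (x : Plane) : ofPt (toPt x) = x := toPt_inj (toPt_ofPt _)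

lemma mem_sphere_pw {o x : Plane} {r : ℝ} (hr : 0 < r) :
    x ∈ Metric.sphere o r ↔ pw (toPt o) r (toPt x) = 0 := by
  rw [Metric.mem_sphere, EuclideanSpace.dist_eq, Fin.sum_univ_two, Real.dist_eq, Real.dist_eq,
    sq_abs, sq_abs]
  simp only [pw, toPt]
  have hnn : 0 ≤ (x 0 - o 0) ^ 2 + (x 1 - o 1) ^ 2 := by positivity
  constructor
  · intro h
    have := Real.sq_sqrt hnn
    rw [h] at this
    linarith
  · intro h
    have h2 : (x 0 - o 0) ^ 2 + (x 1 - o 1) ^ 2 = r ^ 2 := by linarith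
    rw [h2, Real.sqrt_sq hr.le]

/-- coordinates of the points of `P` -/
def img (P : Finset Plane) : Finset Pt := P.image toPt

lemma card_img (P : Finset Plane) : (img P).card = P.card :=
  card_image_of_injective _ toPt_inj

lemma mem_img {P : Finset Plane} {z : Pt} : z ∈ img P ↔ ofPt z ∈ P := by
  simp only [img, mem_image]
  constructor
  · rintro ⟨x, hx, rfl⟩
    rwa [ofPt_toPt]
  · intro h
    exact ⟨_, h, toPt_ofPt z⟩

/-- trace of a set of the plane on the coordinates of `P` -/
def phi (P : Finset Plane) (C : Set Plane) : Finset Pt := (img P).filter (fun z => ofPt z ∈ C)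

lemma three_points {P : Finset Plane} {C : Set Plane} (h : 3 ≤ (C ∩ (P : Set Plane)).ncard) :
    ∃ x ∈ phi P C, ∃ y ∈ phi P C, ∃ z ∈ phi P C, x ≠ y ∧ x ≠ z ∧ y ≠ z := by
  have h1 : C ∩ (P : Set Plane) = ((P.filter (fun x => x ∈ C) : Finset Plane) : Set Plane) := by
    ext x; simp [and_comm]
  rw [h1, Set.ncard_coe_finset] at h
  obtain ⟨x, hx, y, hy, z, hz, hxy, hxz, hyz⟩ := two_lt_card.1 h
  simp only [mem_filter] at hx hy hz
  have hmem : ∀ x : Plane, x ∈ P ∧ x ∈ C → toPt x ∈ phi P C := by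
    intro x hx
    simp only [phi, mem_filter, mem_img, ofPt_toPt]
    exact hx
  exact ⟨toPt x, hmem x hx, toPt y, hmem y hy, toPt z, hmem z hz, fun h => hxy (toPt_inj h),
    fun h => hxz (toPt_inj h), fun h => hyz (toPt_inj h)⟩

lemma phi_eq_blk {P : Finset Plane} {o : Plane} {r : ℝ} (hr : 0 < r) {x y z : Pt}
    (hx : x ∈ phi P (Metric.sphere o r)) (hy : y ∈ phi P (Metric.sphere o r))
    (hz : z ∈ phi P (Metric.sphere o r)) (hxy : x ≠ y) (hxz : x ≠ z) (hyz : y ≠ z) :
    phi P (Metric.sphere o r) = blk (img P) x y z ∧ cr x y z ≠ 0 ∧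
      ∀ w : Plane, w ∈ Metric.sphere o r ↔ G x y z (toPt w) = 0 := by
  simp only [phi, mem_filter, mem_sphere_pw hr, toPt_ofPt] at hx hy hz
  have h := circ_iff hxy hxz hyz hx.2 hy.2 hz.2
  refine ⟨?_, circ_cr hxy hxz hyz hx.2 hy.2 hz.2, fun w => ?_⟩
  · ext w
    simp only [phi, mem_filter, mem_sphere_pw hr, toPt_ofPt, mem_blk, h w]
  · rw [mem_sphere_pw hr, h]

theorem image_phi (P : Finset Plane) :
    phi P '' (circlesThrough P) = ((Bs (img P) \ Ls (img P) : Finset (Finset Pt)) :
      Set (Finset Pt)) := by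
  ext B
  constructor
  · rintro ⟨C, ⟨⟨o, r, hr, rfl⟩, h3⟩, rfl⟩
    obtain ⟨x, hx, y, hy, z, hz, hxy, hxz, hyz⟩ := three_points h3
    obtain ⟨e, hcr, -⟩ := phi_eq_blk hr hx hy hz hxy hxz hyz
    have hmem : phi P (Metric.sphere o r) ∈ Bs (img P) := by
      rw [e]
      exact blk_mem (filter_subset _ _ hx) (filter_subset _ _ hy) (filter_subset _ _ hz)
        hxy hxz hyz
    rw [mem_coe, mem_sdiff]
    refine ⟨hmem, fun hL => hcr ?_⟩
    simp only [Ls, mem_filter] at hL
    exact hL.2 x hx y hy z hz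
  · intro hB
    rw [mem_coe, mem_sdiff] at hB
    obtain ⟨hB, hL⟩ := hB
    simp only [Ls, mem_filter, hB, true_and] at hL
    push Not at hL
    obtain ⟨a, ha, b, hb, c, hc, hcr⟩ := hL
    obtain ⟨o, r, hr, h1, h2, h3⟩ := exists_circ hcr
    have hab : a ≠ b := by rintro rfl; apply hcr; simp [cr]
    have hac : a ≠ c := by rintro rfl; apply hcr; simp [cr]
    have hbc : b ≠ c := by rintro rfl; apply hcr; simp [cr]; ring
    have hsub := sub_of_Bs hB
    have hin : ∀ z ∈ img P, pw o r z = 0 → z ∈ phi P (Metric.sphere (ofPt o) r) := by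
      intro z hz hp
      simp only [phi, mem_filter, mem_sphere_pw hr, toPt_ofPt]
      exact ⟨hz, hp⟩
    obtain ⟨e, -, -⟩ := phi_eq_blk hr (hin a (hsub ha) h1) (hin b (hsub hb) h2)
      (hin c (hsub hc) h3) hab hac hbc
    have e2 : phi P (Metric.sphere (ofPt o) r) = B := by
      rw [e, ← eq_blk hB ha hb hc hab hac hbc]
    refine ⟨Metric.sphere (ofPt o) r, ⟨⟨ofPt o, r, hr, rfl⟩, ?_⟩, e2⟩
    have h4 : Metric.sphere (ofPt o) r ∩ (P : Set Plane) =
        ((P.filter (fun x => x ∈ Metric.sphere (ofPt o) r) : Finset Plane) : Set Plane) := by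
      ext x; simp [and_comm]
    rw [h4, Set.ncard_coe_finset]
    refine (three_of_Bs hB).trans ?_
    rw [← e2]
    apply card_le_card_of_injOn ofPt
    · intro z hz
      simp only [phi, coe_filter, Set.mem_ofPred_eq, mem_img] at hz ⊢
      exact hz
    · intro z _ w _ h
      have := congrArg toPt h
      rwa [toPt_ofPt, toPt_ofPt] at this

lemma phi_injOn (P : Finset Plane) : Set.InjOn (phi P) (circlesThrough P) := by
  rintro C ⟨⟨o, r, hr, rfl⟩, h3⟩ C' ⟨⟨o', r', hr', rfl⟩, h3'⟩ h
  obtain ⟨x, hx, y, hy, z, hz, hxy, hxz, hyz⟩ := three_points h3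
  obtain ⟨-, -, e⟩ := phi_eq_blk hr hx hy hz hxy hxz hyz
  rw [h] at hx hy hz
  obtain ⟨-, -, e'⟩ := phi_eq_blk hr' hx hy hz hxy hxz hyz
  ext w
  rw [e, e']

theorem circleCount_eq (P : Finset Plane) :
    circleCount P = (Bs (img P) \ Ls (img P)).card := by
  rw [circleCount, ← (phi_injOn P).ncard_image, image_phi, Set.ncard_coe_finset]

lemma not_mem_Bs {P : Finset Plane} (hP : Admissible P) : img P ∉ Bs (img P) := by
  intro hB
  by_cases hL : img P ∈ Ls (img P)
  · apply hP.1
    simp only [Ls, mem_filter] at hL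
    have h3 := three_of_Bs hB
    obtain ⟨a, ha⟩ : (img P).Nonempty := card_pos.1 (by omega)
    obtain ⟨b, hb, hab, -⟩ := exists_third (x := a) (y := a) h3
    have haP : ofPt a ∈ (P : Set Plane) := mem_img.1 ha
    rw [collinear_iff_of_mem haP]
    refine ⟨ofPt b - ofPt a, fun p hp => ?_⟩
    have hpI : toPt p ∈ img P := by rw [mem_img, ofPt_toPt]; exact hp
    obtain ⟨s, h1, h2⟩ := exists_param hab (hL.2 a ha b hb (toPt p) hpI)
    refine ⟨s, ?_⟩
    apply toPt_inj
    have e1 : (toPt p).1 = p 0 := rfl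
    have e2 : (toPt p).2 = p 1 := rfl
    rw [e1] at h1
    rw [e2] at h2
    simp only [toPt, ofPt, vadd_eq_add, PiLp.add_apply, PiLp.smul_apply, PiLp.sub_apply,
      smul_eq_mul]
    simp
    constructor <;> linarith
  · apply hP.2
    have hmem : img P ∈ ((Bs (img P) \ Ls (img P) : Finset (Finset Pt)) : Set (Finset Pt)) := by
      rw [mem_coe, mem_sdiff]; exact ⟨hB, hL⟩
    rw [← image_phi] at hmem
    obtain ⟨C, ⟨⟨o, r, hr, rfl⟩, -⟩, hC⟩ := hmem
    refine ⟨o, r, hr, fun p hp => ?_⟩
    have : toPt p ∈ phi P (Metric.sphere o r) := by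
      rw [hC, mem_img, ofPt_toPt]; exact hp
    simp only [phi, mem_filter, ofPt_toPt] at this
    exact this.2

/-- lower bound -/
theorem lower_bound {P : Finset Plane} (hP : Admissible P) (hn : 18 ≤ P.card) :
    (P.card - 1).choose 2 + 1 ≤ circleCount P + (P.card - 1) / 2 := by
  have h1 := not_mem_Bs hP
  have h2 := (geo h1 (by rw [card_img]; omega)).lower (by rw [card_img]; omega) h1
  rw [card_img] at h2
  rw [circleCount_eq]
  exact h2

end

end Pool.Agent.H692R3
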