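import Mathlib

/-! Combinatorics of the circles and lines through a finite planar point set: an abstract
structure with unique blocks through triples and Melchior's inequality at every point. -/

namespace Pool.Agent.H692R3

open Finset

variable {α : Type*} [DecidableEq α]

/-- Blocks `Bs` (with a subfamily `Ls` of lines) on the finite set `V`. -/
structure Geo (V : Finset α) (Bs Ls : Finset (Finset α)) : Prop where
  sub : ∀ B ∈ Bs, B ⊆ V
  three : ∀ B ∈ Bs, 3 ≤ B.card
  ex : ∀ T, T ⊆ V → T.card = 3 → ∃ B ∈ Bs, T ⊆ B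
  uniq : ∀ B ∈ Bs, ∀ B' ∈ Bs, 3 ≤ (B ∩ B').card → B = B'
  Lsub : Ls ⊆ Bs
  Luniq : ∀ B ∈ Ls, ∀ B' ∈ Ls, 2 ≤ (B ∩ B').card → B = B'
  mel : ∀ p ∈ V, 3 ≤ ∑ B ∈ Bs with p ∈ B, (4 - (B.card : ℤ))

lemma card_split (B A : Finset α) (j m : ℕ) :
    #{T ∈ B.powersetCard (j + m) | (T ∩ A).card = j} =
      (B ∩ A).card.choose j * (B \ A).card.choose m := by
  rw [← card_powersetCard, ← card_powersetCard, ← card_product]
  refine card_nbij' (fun T => (T ∩ A, T \ A)) (fun X => X.1 ∪ X.2) ?_ ?_ ?_ ?_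
  · intro T hT
    simp only [coe_filter, Set.mem_ofPred_eq, mem_powersetCard] at hT
    simp only [coe_product, Set.mem_prod, mem_coe, mem_powersetCard]
    obtain ⟨⟨h1, h2⟩, h3⟩ := hT
    have h4 : (T ∩ A).card + (T \ A).card = T.card := card_inter_add_card_sdiff T A
    refine ⟨⟨inter_subset_inter_right h1, h3⟩, sdiff_subset_sdiff h1 le_rfl, by omega⟩
  · intro X hX
    simp only [coe_product, Set.mem_prod, mem_coe, mem_powersetCard] at hX
    obtain ⟨⟨h1, h2⟩, h3, h4⟩ := hX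
    simp only [coe_filter, Set.mem_ofPred_eq, mem_powersetCard]
    have hd : Disjoint X.1 X.2 := by
      rw [disjoint_left]
      intro x hx hx'
      have := mem_sdiff.1 (h3 hx')
      exact this.2 (mem_inter.1 (h1 hx)).2
    have e1 : (X.1 ∪ X.2) ∩ A = X.1 := by
      ext x
      simp only [mem_inter, mem_union]
      constructor
      · rintro ⟨h | h, hA⟩
        · exact h
        · exact absurd hA (mem_sdiff.1 (h3 h)).2
      · intro h
        exact ⟨Or.inl h, (mem_inter.1 (h1 h)).2⟩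
    refine ⟨⟨?_, ?_⟩, ?_⟩
    · apply union_subset
      · exact h1.trans inter_subset_left
      · exact h3.trans sdiff_subset
    · rw [card_union_of_disjoint hd, h2, h4]
    · rw [e1, h2]
  · intro T _
    simp only
    ext x
    simp only [mem_union, mem_inter, mem_sdiff]
    tauto
  · intro X hX
    simp only [coe_product, Set.mem_prod, mem_coe, mem_powersetCard] at hX
    obtain ⟨⟨h1, h2⟩, h3, h4⟩ := hX
    ext x
    · simp only [mem_inter, mem_union]
      constructor
      · rintro ⟨h | h, hA⟩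
        · exact h
        · exact absurd hA (mem_sdiff.1 (h3 h)).2
      · intro h
        exact ⟨Or.inl h, (mem_inter.1 (h1 h)).2⟩
    · simp only [mem_sdiff, mem_union]
      constructor
      · rintro ⟨h | h, hA⟩
        · exact absurd (mem_inter.1 (h1 h)).2 hA
        · exact h
      · intro h
        exact ⟨Or.inr h, (mem_sdiff.1 (h3 h)).2⟩

lemma double_count {β : Type*} (Bs : Finset β) (𝒯 : Finset (Finset α)) (r : β → Finset α) :
    ∑ B ∈ Bs, #{T ∈ 𝒯 | T ⊆ r B} = ∑ T ∈ 𝒯, #{B ∈ Bs | T ⊆ r B} := by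
  simp only [card_filter]
  exact sum_comm

namespace Geo

variable {V : Finset α} {Bs Ls : Finset (Finset α)}

lemma card_through (h : Geo V Bs Ls) {T : Finset α} (hT : T ⊆ V) (hc : T.card = 3) :
    #{B ∈ Bs | T ⊆ B} = 1 := by
  obtain ⟨B, hB, hTB⟩ := h.ex T hT hc
  rw [card_eq_one]
  refine ⟨B, ?_⟩
  ext B'
  simp only [mem_filter, mem_singleton]
  constructor
  · rintro ⟨hB', hTB'⟩
    apply h.uniq B' hB' B hB
    rw [← hc]
    exact card_le_card (subset_inter hTB' hTB)
  · rintro rfl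
    exact ⟨hB, hTB⟩

lemma sum_triples (h : Geo V Bs Ls) {A : Finset α} (hA : A ⊆ V) {j m : ℕ} (hjm : j + m = 3) :
    ∑ B ∈ Bs, (B ∩ A).card.choose j * (B \ A).card.choose m =
      A.card.choose j * (V.card - A.card).choose m := by
  have h1 : ∀ B ∈ Bs, (B ∩ A).card.choose j * (B \ A).card.choose m =
      #{T ∈ {T ∈ V.powersetCard (j + m) | (T ∩ A).card = j} | T ⊆ B} := by
    intro B hB
    rw [← card_split]
    congr 1
    ext T
    simp only [mem_filter, mem_powersetCard]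
    constructor
    · rintro ⟨⟨h1, h2⟩, h3⟩
      exact ⟨⟨⟨h1.trans (h.sub B hB), h2⟩, h3⟩, h1⟩
    · rintro ⟨⟨⟨h1, h2⟩, h3⟩, h4⟩
      exact ⟨⟨h4, h2⟩, h3⟩
  rw [sum_congr rfl h1, double_count Bs _ (fun B => B)]
  have h2 : ∀ T ∈ {T ∈ V.powersetCard (j + m) | (T ∩ A).card = j}, #{B ∈ Bs | T ⊆ B} = 1 := by
    intro T hT
    simp only [mem_filter, mem_powersetCard] at hT
    exact h.card_through hT.1.1 (by omega)
  rw [sum_congr rfl h2, sum_const, smul_eq_mul, mul_one, card_split]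
  rw [inter_eq_right.2 hA, card_sdiff_of_subset hA]

/-- sum of Melchior's inequality over a set of points -/
lemma mel_sum (h : Geo V Bs Ls) {A : Finset α} (hA : A ⊆ V) :
    3 * (A.card : ℤ) ≤ ∑ B ∈ Bs, ((B ∩ A).card : ℤ) * (4 - (B.card : ℤ)) := by
  have h1 : ∑ p ∈ A, (3 : ℤ) ≤ ∑ p ∈ A, ∑ B ∈ Bs with p ∈ B, (4 - (B.card : ℤ)) :=
    sum_le_sum (fun p hp => h.mel p (hA hp))
  have h2 : ∑ p ∈ A, ∑ B ∈ Bs with p ∈ B, (4 - (B.card : ℤ)) =
      ∑ B ∈ Bs, ((B ∩ A).card : ℤ) * (4 - (B.card : ℤ)) := by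
    simp only [sum_filter]
    rw [sum_comm]
    apply sum_congr rfl
    intro B _
    rw [← sum_filter, sum_const, nsmul_eq_mul]
    congr 2
    congr 1
    ext x
    simp [and_comm]
  rw [h2] at h1
  simpa [mul_comm] using h1

lemma inter_le (h : Geo V Bs Ls) {B B' : Finset α} (hB : B ∈ Bs) (hB' : B' ∈ Bs) (hne : B ≠ B') :
    (B ∩ B').card ≤ 2 := by
  by_contra hcon
  exact hne (h.uniq B hB B' hB' (by omega))

lemma Linter_le (h : Geo V Bs Ls) {B B' : Finset α} (hB : B ∈ Ls) (hB' : B' ∈ Ls) (hne : B ≠ B') :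
    (B ∩ B').card ≤ 1 := by
  by_contra hcon
  exact hne (h.Luniq B hB B' hB' (by omega))

end Geo

lemma matching_bound {β : Type*} (𝒮 : Finset β) (r : β → Finset α) (A : Finset α)
    (h2 : ∀ B ∈ 𝒮, (r B ∩ A).card = 2)
    (hd : ∀ B ∈ 𝒮, ∀ B' ∈ 𝒮, B ≠ B' → Disjoint (r B ∩ A) (r B' ∩ A)) :
    𝒮.card ≤ A.card / 2 := by
  have h1 : (𝒮.biUnion (fun B => r B ∩ A)).card = ∑ B ∈ 𝒮, (r B ∩ A).card :=
    card_biUnion hd
  rw [sum_congr rfl h2, sum_const, smul_eq_mul] at h1
  have h3 : (𝒮.biUnion (fun B => r B ∩ A)).card ≤ A.card := by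
    apply card_le_card
    intro x hx
    simp only [mem_biUnion, mem_inter] at hx
    obtain ⟨_, _, _, hxA⟩ := hx
    exact hxA
  omega

namespace Geo

variable {V : Finset α} {Bs Ls : Finset (Finset α)}

/-- pairs of points off `B0` in blocks meeting `B0` twice -/
lemma pair_bound (h : Geo V Bs Ls) {B0 : Finset α} (hB0 : B0 ∈ Bs) :
    ∑ B ∈ Bs, (if (B ∩ B0).card = 2 then (B \ B0).card.choose 2 else 0) ≤
      (V.card - B0.card).choose 2 * (B0.card / 2) := by
  rw [← sum_filter]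
  have h1 : ∀ B ∈ Bs.filter (fun B => (B ∩ B0).card = 2), (B \ B0).card.choose 2 =
      #{e ∈ (V \ B0).powersetCard 2 | e ⊆ B} := by
    intro B hB
    rw [mem_filter] at hB
    rw [← card_powersetCard]
    congr 1
    ext e
    simp only [mem_filter, mem_powersetCard]
    constructor
    · rintro ⟨h1, h2⟩
      exact ⟨⟨h1.trans (sdiff_subset_sdiff (h.sub B hB.1) le_rfl), h2⟩, h1.trans sdiff_subset⟩
    · rintro ⟨⟨h1, h2⟩, h3⟩
      refine ⟨?_, h2⟩
      intro x hx
      exact mem_sdiff.2 ⟨h3 hx, (mem_sdiff.1 (h1 hx)).2⟩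
  rw [sum_congr rfl h1, double_count _ _ (fun B => B)]
  have h2 : ∀ e ∈ (V \ B0).powersetCard 2,
      #{B ∈ Bs.filter (fun B => (B ∩ B0).card = 2) | e ⊆ B} ≤ B0.card / 2 := by
    intro e he
    rw [mem_powersetCard] at he
    apply matching_bound _ (fun B => B) B0
    · intro B hB
      simp only [mem_filter] at hB
      exact hB.1.2
    · intro B hB B' hB' hne
      simp only [mem_filter] at hB hB'
      rw [disjoint_left]
      intro x hx hx'
      apply hne
      apply h.uniq B hB.1.1 B' hB'.1.1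
      have hxe : x ∉ e := fun hxe => (mem_sdiff.1 (he.1 hxe)).2 (mem_inter.1 hx).2
      have : (insert x e).card = 3 := by rw [card_insert_of_notMem hxe, he.2]
      rw [← this]
      apply card_le_card
      apply insert_subset
      · exact mem_inter.2 ⟨(mem_inter.1 hx).1, (mem_inter.1 hx').1⟩
      · exact subset_inter hB.2 hB'.2
  calc _ ≤ ∑ e ∈ (V \ B0).powersetCard 2, B0.card / 2 := sum_le_sum h2
    _ = _ := by
      rw [sum_const, smul_eq_mul, card_powersetCard, card_sdiff_of_subset (h.sub B0 hB0)]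

lemma line_pairs (h : Geo V Bs Ls) :
    ∑ B ∈ Ls, B.card.choose 2 ≤ V.card.choose 2 := by
  have h1 : ∀ B ∈ Ls, B.card.choose 2 = #{e ∈ V.powersetCard 2 | e ⊆ B} := by
    intro B hB
    rw [← card_powersetCard]
    congr 1
    ext e
    simp only [mem_filter, mem_powersetCard]
    constructor
    · rintro ⟨h1, h2⟩
      exact ⟨⟨h1.trans (h.sub B (h.Lsub hB)), h2⟩, h1⟩
    · rintro ⟨⟨h1, h2⟩, h3⟩
      exact ⟨h3, h2⟩
  rw [sum_congr rfl h1, double_count _ _ (fun B => B)]
  have h2 : ∀ e ∈ V.powersetCard 2, #{B ∈ Ls | e ⊆ B} ≤ 1 := by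
    intro e he
    rw [mem_powersetCard] at he
    rw [card_le_one]
    intro B hB B' hB'
    simp only [mem_filter] at hB hB'
    apply h.Luniq B hB.1 B' hB'.1
    rw [← he.2]
    exact card_le_card (subset_inter hB.2 hB'.2)
  calc _ ≤ ∑ e ∈ V.powersetCard 2, 1 := sum_le_sum h2
    _ = _ := by rw [sum_const, smul_eq_mul, mul_one, card_powersetCard]

lemma line_two (h : Geo V Bs Ls) {B0 : Finset α} (hB0 : B0 ∈ Bs) :
    ∑ B ∈ Ls, (if (B ∩ B0).card = 2 then (B \ B0).card else 0) ≤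
      (V.card - B0.card) * (B0.card / 2) := by
  rw [← sum_filter]
  have h1 : ∀ B ∈ Ls.filter (fun B => (B ∩ B0).card = 2), (B \ B0).card =
      #{q ∈ V \ B0 | q ∈ B} := by
    intro B hB
    rw [mem_filter] at hB
    congr 1
    ext q
    simp only [mem_filter, mem_sdiff]
    constructor
    · rintro ⟨h1, h2⟩
      exact ⟨⟨h.sub B (h.Lsub hB.1) h1, h2⟩, h1⟩
    · rintro ⟨⟨_, h2⟩, h3⟩
      exact ⟨h3, h2⟩
  rw [sum_congr rfl h1]
  have h0 : ∑ B ∈ Ls.filter (fun B => (B ∩ B0).card = 2), #{q ∈ V \ B0 | q ∈ B} =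
      ∑ q ∈ V \ B0, #{B ∈ Ls.filter (fun B => (B ∩ B0).card = 2) | q ∈ B} := by
    simp only [card_filter]
    exact sum_comm
  rw [h0]
  have h2 : ∀ q ∈ V \ B0, #{B ∈ Ls.filter (fun B => (B ∩ B0).card = 2) | q ∈ B} ≤
      B0.card / 2 := by
    intro q hq
    apply matching_bound _ (fun B => B) B0
    · intro B hB
      simp only [mem_filter] at hB
      exact hB.1.2
    · intro B hB B' hB' hne
      simp only [mem_filter] at hB hB'
      rw [disjoint_left]
      intro x hx hx'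
      apply hne
      apply h.Luniq B hB.1.1 B' hB'.1.1
      have hxq : x ≠ q := by
        rintro rfl
        exact (mem_sdiff.1 hq).2 (mem_inter.1 hx).2
      have : ({x, q} : Finset α).card = 2 := card_pair hxq
      rw [← this]
      apply card_le_card
      intro y hy
      simp only [mem_insert, mem_singleton] at hy
      rcases hy with rfl | rfl
      · exact mem_inter.2 ⟨(mem_inter.1 hx).1, (mem_inter.1 hx').1⟩
      · exact mem_inter.2 ⟨hB.2, hB'.2⟩
  calc _ ≤ ∑ q ∈ V \ B0, B0.card / 2 := sum_le_sum h2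
    _ = _ := by rw [sum_const, smul_eq_mul, card_sdiff_of_subset (h.sub B0 hB0)]

end Geo

end Pool.Agent.H692R3
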