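import Pool.Agent.H692R3.Key

/-! Numerical part: the multipliers and the lower bound for at least 18 points. -/

namespace Pool.Agent.H692R3

open Finset

lemma choose_two_int (s : ℕ) : ((s.choose 2 : ℕ) : ℤ) * 2 = s * ((s : ℤ) - 1) := by
  induction s with
  | zero => simp
  | succ s ih =>
    rw [Nat.choose_succ_succ' s 1, Nat.choose_one_right]
    push_cast
    linarith

lemma choose_three_int (s : ℕ) : ((s.choose 3 : ℕ) : ℤ) * 6 = s * ((s : ℤ) - 1) * ((s : ℤ) - 2) := by
  induction s with
  | zero => simp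
  | succ s ih =>
    rw [Nat.choose_succ_succ' s 2]
    push_cast
    have := choose_two_int s
    linarith

/-- main family of multipliers -/
def certC (K : ℕ) : Cert where
  D := 6 * (K + 2)
  e1 := 2 * (K + 1)
  e2 := K + 4
  e3 := 6
  m1 := K + 4
  m2 := 2 * (K + 1)
  p := 0
  l1 := 2 * (K + 2)
  l2 := 0

/-- multipliers for a large base circle -/
def certB (t : ℕ) : Cert where
  D := t * (t + 1)
  e1 := 2 * t
  e2 := 0
  e3 := 0
  m1 := 0
  m2 := 0
  p := 2
  l1 := 0
  l2 := t * (t + 1)

/-- multipliers for the single case `n = 18`, `K = 5` -/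
def certA : Cert where
  D := 105
  e1 := 24
  e2 := 24
  e3 := 24
  m1 := 27
  m2 := 27
  p := 0
  l1 := 35
  l2 := 0

lemma certC_circle {K i s : ℕ} (hi : i ≤ 2) (h3 : 3 ≤ i + s) (hK : i + s ≤ K) :
    (certC K).w i s false ≤ (certC K).D := by
  have e2 := choose_two_int s
  have e3 := choose_three_int s
  have hs : (3 : ℤ) ≤ i + s := by exact_mod_cast h3
  have hK' : (i : ℤ) + s ≤ K := by exact_mod_cast hK
  interval_cases i
  · simp only [Cert.w, certC, Nat.choose_zero_succ, Nat.cast_zero, zero_add] at *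
    simp only [show (0 : ℕ) ≠ 2 by decide, Bool.false_eq_true, if_false, false_and]
    have h1 : (0 : ℤ) ≤ ((s : ℤ) - 3) * (-(s : ℤ) ^ 2 + (2 * K + 2) * s - (2 * K + 4)) := by
      apply mul_nonneg (by linarith)
      nlinarith [mul_nonneg (sub_nonneg.2 hs) (sub_nonneg.2 hK')]
    nlinarith [h1, e2, e3]
  · simp only [Cert.w, certC, Nat.cast_one] at *
    simp only [show (1 : ℕ) ≠ 2 by decide, Bool.false_eq_true, if_false, false_and]
    have h1 : (0 : ℤ) ≤ ((s : ℤ) - 2) * (-2 * (s : ℤ) ^ 2 + (3 * K + 2) * s - 3 * K) := by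
      apply mul_nonneg (by linarith)
      nlinarith [mul_nonneg (show (0 : ℤ) ≤ (s : ℤ) - 2 by linarith)
        (show (0 : ℤ) ≤ K - 1 - (s : ℤ) by linarith)]
    have h0 : ((Nat.choose 1 2 : ℕ) : ℤ) = 0 := by decide
    rw [h0]
    nlinarith [h1, e2, e3]
  · simp only [Cert.w, certC] at *
    simp only [Bool.false_eq_true, if_false, false_and, if_true]
    push_cast at hs hK'
    have h1 : (0 : ℤ) ≤ ((s : ℤ) - 1) * ((s : ℤ) - 2) * (K - 2 - s) := by
      apply mul_nonneg _ (by linarith)
      rcases eq_or_lt_of_le (show 1 ≤ s by omega) with h | h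
      · rw [← h]; norm_num
      · have : (2 : ℤ) ≤ s := by exact_mod_cast h
        exact mul_nonneg (by linarith) (by linarith)
    have h0 : ((Nat.choose 2 2 : ℕ) : ℤ) = 1 := by decide
    rw [h0]
    push_cast
    nlinarith [h1, e2, e3]

lemma choose_two_ge {k : ℕ} (h : 3 ≤ k) : (3 : ℤ) ≤ (k.choose 2 : ℕ) := by
  have := Nat.choose_le_choose 2 h
  have h3 : Nat.choose 3 2 = 3 := by decide
  rw [h3] at this
  exact_mod_cast this

lemma certC_line {K i s : ℕ} (hi : i ≤ 2) (h3 : 3 ≤ i + s) (hK : i + s ≤ K) :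
    (certC K).w i s true ≤ 0 := by
  have h1 := certC_circle hi h3 hK
  have h2 : (certC K).w i s true = (certC K).w i s false -
      (certC K).l1 * (((i + s).choose 2 : ℕ) : ℤ) := by
    simp only [Cert.w, certC]
    simp
  rw [h2]
  have h4 := choose_two_ge h3
  simp only [certC] at h1 ⊢
  nlinarith [h1, h4]

lemma certB_circle {t i s : ℕ} (hi : i ≤ 2) (h3 : 3 ≤ i + s) :
    (certB t).w i s false ≤ (certB t).D := by
  have e2 := choose_two_int s
  have ht : (0 : ℤ) ≤ t := by positivity
  interval_cases i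
  · simp only [Cert.w, certB]
    simp
  · simp only [Cert.w, certB]
    simp
  · simp only [Cert.w, certB]
    simp
    have : (0 : ℤ) ≤ ((s : ℤ) - t) * ((s : ℤ) - t - 1) := by
      rcases le_or_gt (s : ℤ) t with h | h
      · exact mul_nonneg_of_nonpos_of_nonpos (by linarith) (by linarith)
      · exact mul_nonneg (by linarith) (by linarith)
    nlinarith [this, e2]

lemma certB_line {t i s : ℕ} (ht : 1 ≤ t) (hi : i ≤ 2) (h3 : 3 ≤ i + s) :
    (certB t).w i s true ≤ 0 := by
  have e2 := choose_two_int s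
  have ht' : (1 : ℤ) ≤ t := by exact_mod_cast ht
  interval_cases i
  · simp only [Cert.w, certB]
    simp
  · simp only [Cert.w, certB]
    simp
  · simp only [Cert.w, certB]
    simp
    have hs : (1 : ℤ) ≤ s := by exact_mod_cast (show 1 ≤ s by omega)
    have h1 : (0 : ℤ) ≤ (s : ℤ) * ((s : ℤ) - 1) := mul_nonneg (by linarith) (by linarith)
    have h2 : (0 : ℤ) ≤ (t : ℤ) * ((t : ℤ) - 1) * s :=
      mul_nonneg (mul_nonneg (by linarith) (by linarith)) (by linarith)
    nlinarith [h1, h2, e2]

lemma certA_circle : ∀ i s : ℕ, i ≤ 2 → 3 ≤ i + s → i + s ≤ 5 → certA.w i s false ≤ certA.D := by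
  intro i s hi h3 h5
  have hs : s ≤ 5 := by omega
  interval_cases i <;> interval_cases s <;> first | omega | decide

lemma certA_line : ∀ i s : ℕ, i ≤ 2 → 3 ≤ i + s → i + s ≤ 5 → certA.w i s true ≤ 0 := by
  intro i s hi h3 h5
  have hs : s ≤ 5 := by omega
  interval_cases i <;> interval_cases s <;> first | omega | decide

/-- the polynomial inequality behind the main family -/
lemma polyC {K r : ℤ} (hK : 3 ≤ K) (hKr : K ≤ r) (hn : 18 ≤ K + r) (h5 : K = 5 → 19 ≤ K + r) :
    0 ≤ 2 * r ^ 3 + (K ^ 2 - 4 * K - 22) * r ^ 2 + (2 * K ^ 3 - 17 * K ^ 2 + 68) * r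
      + (-6 * K ^ 3 + 16 * K ^ 2 + 20 * K - 48) := by
  rcases le_or_gt K 9 with h9 | h9
  · interval_cases K
    · nlinarith [mul_nonneg (show (0 : ℤ) ≤ r - 15 by linarith) (show (0 : ℤ) ≤ r - 15 by linarith), mul_nonneg (mul_nonneg (show (0 : ℤ) ≤ r - 15 by linarith) (show (0 : ℤ) ≤ r - 15 by linarith)) (show (0 : ℤ) ≤ r - 15 by linarith)]
    · nlinarith [mul_nonneg (show (0 : ℤ) ≤ r - 14 by linarith) (show (0 : ℤ) ≤ r - 14 by linarith), mul_nonneg (mul_nonneg (show (0 : ℤ) ≤ r - 14 by linarith) (show (0 : ℤ) ≤ r - 14 by linarith)) (show (0 : ℤ) ≤ r - 14 by linarith)]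
    · have hn' := h5 rfl
      nlinarith [mul_nonneg (show (0 : ℤ) ≤ r - 14 by linarith) (show (0 : ℤ) ≤ r - 14 by linarith), mul_nonneg (mul_nonneg (show (0 : ℤ) ≤ r - 14 by linarith) (show (0 : ℤ) ≤ r - 14 by linarith)) (show (0 : ℤ) ≤ r - 14 by linarith)]
    · nlinarith [mul_nonneg (show (0 : ℤ) ≤ r - 12 by linarith) (show (0 : ℤ) ≤ r - 12 by linarith), mul_nonneg (mul_nonneg (show (0 : ℤ) ≤ r - 12 by linarith) (show (0 : ℤ) ≤ r - 12 by linarith)) (show (0 : ℤ) ≤ r - 12 by linarith)]
    · nlinarith [mul_nonneg (show (0 : ℤ) ≤ r - 11 by linarith) (show (0 : ℤ) ≤ r - 11 by linarith), mul_nonneg (mul_nonneg (show (0 : ℤ) ≤ r - 11 by linarith) (show (0 : ℤ) ≤ r - 11 by linarith)) (show (0 : ℤ) ≤ r - 11 by linarith)]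
    · nlinarith [mul_nonneg (show (0 : ℤ) ≤ r - 10 by linarith) (show (0 : ℤ) ≤ r - 10 by linarith), mul_nonneg (mul_nonneg (show (0 : ℤ) ≤ r - 10 by linarith) (show (0 : ℤ) ≤ r - 10 by linarith)) (show (0 : ℤ) ≤ r - 10 by linarith)]
    · nlinarith [mul_nonneg (show (0 : ℤ) ≤ r - 9 by linarith) (show (0 : ℤ) ≤ r - 9 by linarith), mul_nonneg (mul_nonneg (show (0 : ℤ) ≤ r - 9 by linarith) (show (0 : ℤ) ≤ r - 9 by linarith)) (show (0 : ℤ) ≤ r - 9 by linarith)]
  · have h10 : 10 ≤ K := by linarith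
    have hr : 10 ≤ r := by linarith
    have a1 : 0 ≤ (K ^ 2 - 4 * K - 22) * r ^ 2 := by
      apply mul_nonneg _ (by positivity)
      nlinarith
    have a2 : (2 * K ^ 3 - 17 * K ^ 2 + 68) * r ≥ (2 * K ^ 3 - 17 * K ^ 2 + 68) * 10 := by
      have : 0 ≤ 2 * K ^ 3 - 17 * K ^ 2 + 68 := by
        nlinarith [mul_nonneg (sq_nonneg K) (show (0 : ℤ) ≤ K - 10 by linarith)]
      nlinarith
    have a3 : K ^ 3 ≤ r ^ 3 := by gcongr
    nlinarith [mul_nonneg (sq_nonneg K) (show (0 : ℤ) ≤ K - 10 by linarith)]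

lemma polyB {K r : ℤ} (hr : 2 ≤ r) (hKr : r + 1 ≤ K) (hn : 18 ≤ K + r) :
    6 * (K + r - 2) ^ 2 ≤ r * K * (4 * K - r - 9) := by
  obtain ⟨a, ha⟩ : ∃ a, r = 2 + a := ⟨r - 2, by ring⟩
  obtain ⟨b, hb⟩ : ∃ b, K = r + 1 + b := ⟨K - r - 1, by ring⟩
  have ha0 : 0 ≤ a := by linarith
  have hb0 : 0 ≤ b := by linarith
  subst ha
  subst hb
  have hab : 13 ≤ 2 * a + b := by linarith
  nlinarith [mul_nonneg ha0 hb0, mul_nonneg ha0 (mul_nonneg ha0 hb0), mul_nonneg hb0 (mul_nonneg ha0 hb0),
    mul_nonneg ha0 (mul_nonneg ha0 ha0), mul_nonneg ha0 ha0, mul_nonneg hb0 hb0,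
    mul_nonneg ha0 (sub_nonneg.2 hab), mul_nonneg hb0 (sub_nonneg.2 hab),
    mul_nonneg (mul_nonneg ha0 ha0) (sub_nonneg.2 hab), mul_nonneg (mul_nonneg ha0 hb0) (sub_nonneg.2 hab),
    mul_nonneg (mul_nonneg hb0 hb0) (sub_nonneg.2 hab)]


lemma final_arith {n : ℕ} {N : ℤ} (hn : 2 ≤ n) (h : ((n : ℤ) - 2) ^ 2 ≤ 2 * (N - 1)) :
    (((n - 1).choose 2 : ℕ) : ℤ) + 1 ≤ N + (((n - 1) / 2 : ℕ) : ℤ) := by
  obtain ⟨m, rfl⟩ : ∃ m, n = m + 1 := ⟨n - 1, by omega⟩
  have h1 := choose_two_int m
  have h2 : (m : ℤ) - 1 ≤ 2 * ((m / 2 : ℕ) : ℤ) := by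
    have : m ≤ 2 * (m / 2) + 1 := by omega
    have : (m : ℤ) ≤ 2 * ((m / 2 : ℕ) : ℤ) + 1 := by exact_mod_cast this
    linarith
  simp only [Nat.add_sub_cancel]
  push_cast at h
  nlinarith [h1, h2, h]

/-- multipliers for a large base line -/
def certB' (t : ℕ) : Cert where
  D := t * (t + 1)
  e1 := 2 * t
  e2 := 0
  e3 := 0
  m1 := 0
  m2 := 0
  p := 2
  l1 := 0
  l2 := 0

lemma certB'_circle {t i s : ℕ} (hi : i ≤ 2) (h3 : 3 ≤ i + s) :
    (certB' t).w i s false ≤ (certB' t).D := by
  have h := certB_circle (t := t) hi h3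
  simpa [Cert.w, certB, certB'] using h

lemma certB'_line {t i s : ℕ} (hi : i ≤ 1) :
    (certB' t).w i s true ≤ 0 := by
  interval_cases i
  · simp only [Cert.w, certB']
    simp
  · simp only [Cert.w, certB']
    simp

namespace Geo

variable {α : Type*} [DecidableEq α] {V : Finset α} {Bs Ls : Finset (Finset α)}

theorem lower (h : Geo V Bs Ls) (hn : 18 ≤ V.card) (hV : V ∉ Bs) :
    (V.card - 1).choose 2 + 1 ≤ (Bs \ Ls).card + (V.card - 1) / 2 := by
  obtain ⟨T, hTV, hT⟩ := exists_subset_card_eq (s := V) (n := 3) (by omega)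
  obtain ⟨B1, hB1, -⟩ := h.ex T hTV hT
  obtain ⟨B0, hB0, hmax⟩ := exists_max_image Bs card ⟨B1, hB1⟩
  obtain ⟨K, hK⟩ : ∃ K, B0.card = K := ⟨_, rfl⟩
  have hK3 : 3 ≤ K := hK ▸ h.three B0 hB0
  have hlt : B0.card < V.card := by
    apply card_lt_card
    refine ⟨h.sub B0 hB0, fun hcon => hV ?_⟩
    have : B0 = V := subset_antisymm (h.sub B0 hB0) hcon
    rwa [← this]
  obtain ⟨r, hr⟩ : ∃ r, V.card = K + r := ⟨V.card - K, by omega⟩
  have hr1 : 1 ≤ r := by omega
  rw [hK] at hmax
  have goal_of : (((V.card - 1).choose 2 : ℕ) : ℤ) + 1 ≤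
      (((Bs \ Ls).card : ℕ) : ℤ) + (((V.card - 1) / 2 : ℕ) : ℤ) →
      (V.card - 1).choose 2 + 1 ≤ (Bs \ Ls).card + (V.card - 1) / 2 := by
    intro hh; exact_mod_cast hh
  apply goal_of
  have hrhsq : ∀ c : Cert, c.rhs K r = c.e1 * ((K.choose 2 : ℤ) * r) + c.e2 * (K * (r.choose 2 : ℤ))
      + c.e3 * (r.choose 3 : ℤ)
      + c.m1 * (K * ((K : ℤ) - 1)) + c.m2 * (3 * r)
      - c.p * ((r.choose 2 : ℤ) * ((K / 2 : ℕ) : ℤ)) - c.l1 * ((K + r).choose 2 : ℤ)
      - c.l2 * (r * ((K / 2 : ℕ) : ℤ)) := fun c => rfl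
  have hKc : ((K / 2 : ℕ) : ℤ) * 2 ≤ K := by
    have : K / 2 * 2 ≤ K := Nat.div_mul_le_self K 2
    exact_mod_cast this
  have hK2 : (1 : ℤ) ≤ ((K / 2 : ℕ) : ℤ) := by
    have : 1 ≤ K / 2 := by omega
    exact_mod_cast this
  have hK3' : (3 : ℤ) ≤ K := by exact_mod_cast hK3
  have hr1' : (1 : ℤ) ≤ r := by exact_mod_cast hr1
  have c2K := choose_two_int K
  have c2r := choose_two_int r
  have c3r := choose_three_int r
  have c2n := choose_two_int (K + r)
  have hnz : (18 : ℤ) ≤ K + r := by
    have : 18 ≤ K + r := by omega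
    exact_mod_cast this
  rcases le_or_gt (r + 1) K with hbig | hsmall
  · have hbig' : (r : ℤ) + 1 ≤ K := by exact_mod_cast hbig
    rcases eq_or_lt_of_le hr1 with h1 | h1
    · -- r = 1
      subst h1
      have hVK : V.card - 1 = K := by omega
      rw [hVK]
      generalize K / 2 = q at *
      by_cases hL : B0 ∈ Ls
      · have key := h.key_line (certB' 1) hL (by simp [certB']) (by simp [certB'])
          (by simp [certB']) (by simp [certB']) (by simp [certB']) hK hr hmax
          (fun i s hi h3 _ => certB'_circle hi h3) (fun i s hi h3 _ => certB'_line hi)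
        rw [hrhsq] at key
        simp only [certB'] at key
        have h12 : Nat.choose 1 2 = 0 := by decide
        rw [h12] at key
        push_cast at key
        linarith
      · have key := h.key_circle (certB 1) hB0 hL (by simp [certB]) (by simp [certB])
          (by simp [certB]) (by simp [certB]) (by simp [certB]) hK hr hmax
          (fun i s hi h3 _ => certB_circle hi h3) (fun i s hi h3 _ => certB_line le_rfl hi h3)
        rw [hrhsq] at key
        simp only [certB] at key
        have h12 : Nat.choose 1 2 = 0 := by decide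
        rw [h12] at key
        push_cast at key
        linarith
    · have hr2 : (2 : ℤ) ≤ r := by exact_mod_cast h1
      have pB := polyB hr2 hbig' hnz
      apply final_arith (by omega)
      rw [hr]
      push_cast
      generalize K / 2 = q at *
      have hrK : (0 : ℤ) ≤ r * K := by positivity
      have hcr : (0 : ℤ) ≤ ((r.choose 2 : ℕ) : ℤ) := by positivity
      have hprod1 := mul_le_mul_of_nonneg_left hKc hcr
      have hprod2 := mul_le_mul_of_nonneg_left hKc (show (0 : ℤ) ≤ r by linarith)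
      by_cases hL : B0 ∈ Ls
      · have key := h.key_line (certB' 2) hL (by simp [certB']) (by simp [certB'])
          (by simp [certB']) (by simp [certB']) (by simp [certB']) hK hr hmax
          (fun i s hi h3 _ => certB'_circle hi h3) (fun i s hi h3 _ => certB'_line hi)
        rw [hrhsq] at key
        simp only [certB'] at key
        push_cast at key
        have e1 : 2 * (4 * (((K.choose 2 : ℕ) : ℤ) * r)) = 4 * (K * ((K : ℤ) - 1)) * r := by
          linear_combination 4 * r * c2K
        have e2 : 2 * (((r.choose 2 : ℕ) : ℤ) * K) = r * ((r : ℤ) - 1) * K := by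
          linear_combination K * c2r
        have hrK2 : (2 : ℤ) ≤ r * K := by nlinarith
        linarith [key, pB, e1, e2, hprod1, hprod2, hrK2]
      · have key := h.key_circle (certB 2) hB0 hL (by simp [certB]) (by simp [certB])
          (by simp [certB]) (by simp [certB]) (by simp [certB]) hK hr hmax
          (fun i s hi h3 _ => certB_circle hi h3)
          (fun i s hi h3 _ => certB_line (by norm_num) hi h3)
        rw [hrhsq] at key
        simp only [certB] at key
        push_cast at key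
        have e1 : 2 * (4 * (((K.choose 2 : ℕ) : ℤ) * r)) = 4 * (K * ((K : ℤ) - 1)) * r := by
          linear_combination 4 * r * c2K
        have e2 : 2 * (((r.choose 2 : ℕ) : ℤ) * K) = r * ((r : ℤ) - 1) * K := by
          linear_combination K * c2r
        linarith [key, pB, e1, e2, hprod1, hprod2]
  · have hsm : K ≤ r := by omega
    have hsm' : (K : ℤ) ≤ r := by exact_mod_cast hsm
    apply final_arith (by omega)
    rw [hr]
    push_cast
    by_cases h5 : K = 5 ∧ r = 13
    · obtain ⟨rfl, rfl⟩ := h5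
      have v1 : Nat.choose 5 2 = 10 := by decide
      have v2 : Nat.choose 13 2 = 78 := by decide
      have v3 : Nat.choose 13 3 = 286 := by decide
      have v4 : Nat.choose (5 + 13) 2 = 153 := by decide
      by_cases hL : B0 ∈ Ls
      · have key := h.key_line certA hL (by simp [certA]) (by simp [certA])
          (by simp [certA]) (by simp [certA]) (by simp [certA]) hK hr hmax
          certA_circle (fun i s hi => certA_line i s (by omega))
        simp only [Cert.rhs, certA, v1, v2, v3, v4] at key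
        norm_num at key ⊢
        linarith
      · have key := h.key_circle certA hB0 hL (by simp [certA]) (by simp [certA])
          (by simp [certA]) (by simp [certA]) (by simp [certA]) hK hr hmax
          certA_circle certA_line
        simp only [Cert.rhs, certA, v1, v2, v3, v4] at key
        norm_num at key ⊢
        linarith
    · have pC := polyC hK3' hsm' hnz (by
        intro hh
        have hh' : K = 5 := by exact_mod_cast hh
        have : 19 ≤ K + r := by omega
        exact_mod_cast this)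
      have hD : (0 : ℤ) < 6 * (K + 2) := by positivity
      have hrhs : 6 * ((K : ℤ) + 2) * ((K : ℤ) + r - 2) ^ 2 ≤ 2 * (certC K).rhs K r := by
        simp only [Cert.rhs, certC]
        push_cast at c2n ⊢
        have e1 : 2 * (2 * ((K : ℤ) + 1) * (((K.choose 2 : ℕ) : ℤ) * r)) =
            2 * ((K : ℤ) + 1) * (K * ((K : ℤ) - 1)) * r := by
          linear_combination 2 * ((K : ℤ) + 1) * r * c2K
        have e2 : 2 * (((K : ℤ) + 4) * (K * ((r.choose 2 : ℕ) : ℤ))) =
            ((K : ℤ) + 4) * K * (r * ((r : ℤ) - 1)) := by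
          linear_combination ((K : ℤ) + 4) * K * c2r
        have e4 : 2 * (2 * ((K : ℤ) + 2) * (((K + r).choose 2 : ℕ) : ℤ)) =
            2 * ((K : ℤ) + 2) * (((K : ℤ) + r) * ((K : ℤ) + r - 1)) := by
          linear_combination 2 * ((K : ℤ) + 2) * c2n
        nlinarith [pC, e1, e2, e4, c3r]
      by_cases hL : B0 ∈ Ls
      · have key := h.key_line (certC K) hL (by simp only [certC]; positivity)
          (by simp only [certC]; positivity) (by simp [certC]) (by simp only [certC]; positivity)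
          (by simp [certC]) hK hr hmax
          (fun i s hi h3 hk => certC_circle hi h3 hk)
          (fun i s hi h3 hk => certC_line (by omega) h3 hk)
        have hDe : (certC K).D = 6 * (K + 2) := rfl
        have hle : (certC K).l1 = 2 * (K + 2) := rfl
        rw [hDe, hle] at key
        have h3 := choose_two_ge hK3
        have h3' := mul_le_mul_of_nonneg_left h3 (show (0 : ℤ) ≤ 4 * (K + 2) by positivity)
        refine le_of_mul_le_mul_left ?_ hD
        linarith [key, hrhs, h3']
      · have key := h.key_circle (certC K) hB0 hL (by simp only [certC]; positivity)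
          (by simp only [certC]; positivity) (by simp [certC]) (by simp only [certC]; positivity)
          (by simp [certC]) hK hr hmax
          (fun i s hi h3 hk => certC_circle hi h3 hk)
          (fun i s hi h3 hk => certC_line hi h3 hk)
        have hDe : (certC K).D = 6 * (K + 2) := rfl
        rw [hDe] at key
        refine le_of_mul_le_mul_left ?_ hD
        linarith [key, hrhs]

end Geo

end Pool.Agent.H692R3
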