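import Pool.Agent.Helper543.Melchior
import Pool.Agent.H692R3.Num

/-! Circles and lines through a finite planar set form a `Geo`. -/

namespace Pool.Agent.H692R3

open Finset Pool.Agent.Helper543.Melchior

noncomputable section

open scoped Classical

/-- the determinant vanishing exactly when four points lie on a common circle or line -/
def G (a b c d : Pt) : ℝ :=
  ((b.1 - a.1) ^ 2 + (b.2 - a.2) ^ 2) * ((c.1 - a.1) * (d.2 - a.2) - (c.2 - a.2) * (d.1 - a.1))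
  - ((c.1 - a.1) ^ 2 + (c.2 - a.2) ^ 2) * ((b.1 - a.1) * (d.2 - a.2) - (b.2 - a.2) * (d.1 - a.1))
  + ((d.1 - a.1) ^ 2 + (d.2 - a.2) ^ 2) * ((b.1 - a.1) * (c.2 - a.2) - (b.2 - a.2) * (c.1 - a.1))

lemma G_swap12 (a b c d : Pt) : G b a c d = - G a b c d := by unfold G; ring
lemma G_swap23 (a b c d : Pt) : G a c b d = - G a b c d := by unfold G; ring
lemma G_swap34 (a b c d : Pt) : G a b d c = - G a b c d := by unfold G; ring
lemma G_self1 (a b c : Pt) : G a b c a = 0 := by unfold G; ring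
lemma G_self2 (a b c : Pt) : G a b c b = 0 := by unfold G; ring
lemma G_self3 (a b c : Pt) : G a b c c = 0 := by unfold G; ring

/-- squared norm of `z - a` -/
def nq (a z : Pt) : ℝ := (z.1 - a.1) ^ 2 + (z.2 - a.2) ^ 2

lemma nq_pos {a z : Pt} (h : z ≠ a) : 0 < nq a z := by
  unfold nq
  by_contra hcon
  have h1 : (z.1 - a.1) ^ 2 = 0 := by nlinarith [sq_nonneg (z.1 - a.1), sq_nonneg (z.2 - a.2)]
  have h2 : (z.2 - a.2) ^ 2 = 0 := by nlinarith [sq_nonneg (z.1 - a.1), sq_nonneg (z.2 - a.2)]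
  apply h
  ext
  · have := pow_eq_zero_iff (n := 2) (by norm_num) |>.1 h1; linarith
  · have := pow_eq_zero_iff (n := 2) (by norm_num) |>.1 h2; linarith

/-- inversion in the unit circle about `a`, recentred at the origin -/
def iv (a z : Pt) : Pt := ((z.1 - a.1) / nq a z, (z.2 - a.2) / nq a z)

/-- the inverse map -/
def ivr (a w : Pt) : Pt := (a.1 + w.1 / (w.1 ^ 2 + w.2 ^ 2), a.2 + w.2 / (w.1 ^ 2 + w.2 ^ 2))

lemma ivr_iv {a z : Pt} (h : z ≠ a) : ivr a (iv a z) = z := by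
  have hp := nq_pos h
  have h1 : (iv a z).1 ^ 2 + (iv a z).2 ^ 2 = 1 / nq a z := by
    simp only [iv]
    have : (z.1 - a.1) ^ 2 + (z.2 - a.2) ^ 2 = nq a z := rfl
    field_simp
    rw [this]
  ext
  · simp only [ivr, h1]
    simp only [iv]
    field_simp
    ring
  · simp only [ivr, h1]
    simp only [iv]
    field_simp
    ring

lemma iv_inj {a z w : Pt} (hz : z ≠ a) (hw : w ≠ a) (h : iv a z = iv a w) : z = w := by
  rw [← ivr_iv hz, ← ivr_iv hw, h]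

lemma cr_iv {a b c d : Pt} (hb : b ≠ a) (hc : c ≠ a) (hd : d ≠ a) :
    cr (iv a b) (iv a c) (iv a d) * (nq a b * nq a c * nq a d) = G a b c d := by
  have h1 := (nq_pos hb).ne'
  have h2 := (nq_pos hc).ne'
  have h3 := (nq_pos hd).ne'
  have e1 : nq a b = (b.1 - a.1) ^ 2 + (b.2 - a.2) ^ 2 := rfl
  have e2 : nq a c = (c.1 - a.1) ^ 2 + (c.2 - a.2) ^ 2 := rfl
  have e3 : nq a d = (d.1 - a.1) ^ 2 + (d.2 - a.2) ^ 2 := rfl
  unfold G
  rw [← e1, ← e2, ← e3]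
  simp only [cr, iv]
  field_simp
  ring

lemma cr_iv_zero {a b c d : Pt} (hb : b ≠ a) (hc : c ≠ a) (hd : d ≠ a) :
    cr (iv a b) (iv a c) (iv a d) = 0 ↔ G a b c d = 0 := by
  rw [← cr_iv hb hc hd]
  have h1 := (nq_pos hb).ne'
  have h2 := (nq_pos hc).ne'
  have h3 := (nq_pos hd).ne'
  constructor
  · intro h; rw [h, zero_mul]
  · intro h
    rcases mul_eq_zero.1 h with h | h
    · exact h
    · exact absurd h (by positivity)

lemma cr_line_iff {a b x y z : Pt} (hab : a ≠ b) (hx : cr a b x = 0) (hy : cr a b y = 0)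
    (hxy : x ≠ y) : cr x y z = 0 ↔ cr a b z = 0 := by
  have h := lineOf_eq (S := {z}) hab hx hy hxy
  have h1 : z ∈ lineOf {z} x y ↔ cr x y z = 0 := by rw [mem_lineOf]; simp
  have h2 : z ∈ lineOf {z} a b ↔ cr a b z = 0 := by rw [mem_lineOf]; simp
  rw [← h1, ← h2, h]

lemma G_exchange {a b c x : Pt} (hab : a ≠ b) (hac : a ≠ c) (hbc : b ≠ c) (hxa : x ≠ a)
    (hxb : x ≠ b) (h : G a b c x = 0) (z : Pt) : G a b x z = 0 ↔ G a b c z = 0 := by
  by_cases hz : z = a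
  · subst hz; simp [G_self1]
  · rw [← cr_iv_zero hab.symm hxa hz, ← cr_iv_zero hab.symm hac.symm hz]
    apply cr_line_iff
    · intro hh; exact hbc (iv_inj hab.symm hac.symm hh)
    · exact cr_self_left _ _
    · rw [cr_iv_zero hab.symm hac.symm hxa]; exact h
    · intro hh; exact hxb (iv_inj hab.symm hxa hh).symm

lemma neg_zero_iff' {x y : ℝ} (h : x = -y) : x = 0 ↔ y = 0 := by
  rw [h, neg_eq_zero]

lemma G_basis {a b c x y z : Pt} (hab : a ≠ b) (hac : a ≠ c) (hbc : b ≠ c)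
    (hxy : x ≠ y) (hxz : x ≠ z) (hyz : y ≠ z) (hx : G a b c x = 0) (hy : G a b c y = 0)
    (hz : G a b c z = 0) (w : Pt) : G x y z w = 0 ↔ G a b c w = 0 := by
  -- step 1
  obtain ⟨p, q, hpq, hpx, hqx, h1⟩ : ∃ p q : Pt, p ≠ q ∧ p ≠ x ∧ q ≠ x ∧
      ∀ w, G x p q w = 0 ↔ G a b c w = 0 := by
    by_cases hxa : x = a
    · subst hxa
      exact ⟨b, c, hbc, hab.symm, hac.symm, fun w => Iff.rfl⟩
    by_cases hxb : x = b
    · subst hxb
      exact ⟨a, c, hac, hab, hbc.symm, fun w => neg_zero_iff' (G_swap12 _ _ _ _)⟩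
    · refine ⟨a, b, hab, Ne.symm hxa, Ne.symm hxb, fun w => ?_⟩
      rw [← G_exchange hab hac hbc hxa hxb hx w]
      rw [neg_zero_iff' (G_swap12 a x b w), neg_zero_iff' (G_swap23 a b x w)]
  rw [← h1] at hx hy hz
  rw [← h1 w]
  -- step 2
  obtain ⟨q', hq'x, hq'y, h2⟩ : ∃ q' : Pt, q' ≠ x ∧ q' ≠ y ∧
      ∀ w, G x y q' w = 0 ↔ G x p q w = 0 := by
    by_cases hyp : y = p
    · subst hyp
      exact ⟨q, hqx, hpq.symm, fun w => Iff.rfl⟩
    by_cases hyq : y = q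
    · subst hyq
      exact ⟨p, hpx, hpq, fun w => neg_zero_iff' (G_swap23 _ _ _ _)⟩
    · refine ⟨p, hpx, Ne.symm hyp, fun w => ?_⟩
      rw [← G_exchange hpx.symm hqx.symm hpq hxy.symm hyp hy w]
      exact neg_zero_iff' (G_swap23 _ _ _ _)
  rw [← h2] at hz
  rw [← h2 w]
  by_cases hzq : z = q'
  · subst hzq; exact Iff.rfl
  · exact G_exchange hxy hq'x.symm hq'y.symm (Ne.symm hxz) (Ne.symm hyz) hz w

/-- points of `S` on the circle or line through `a b c` -/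
def blk (S : Finset Pt) (a b c : Pt) : Finset Pt := S.filter (fun z => G a b c z = 0)

/-- all blocks -/
def Bs (S : Finset Pt) : Finset (Finset Pt) :=
  ((S ×ˢ S ×ˢ S).filter (fun t => t.1 ≠ t.2.1 ∧ t.1 ≠ t.2.2 ∧ t.2.1 ≠ t.2.2)).image
    (fun t => blk S t.1 t.2.1 t.2.2)

/-- the blocks lying on straight lines -/
def Ls (S : Finset Pt) : Finset (Finset Pt) :=
  (Bs S).filter (fun B => ∀ a ∈ B, ∀ b ∈ B, ∀ c ∈ B, cr a b c = 0)

lemma mem_Bs {S B : Finset Pt} : B ∈ Bs S ↔ ∃ a ∈ S, ∃ b ∈ S, ∃ c ∈ S,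
    a ≠ b ∧ a ≠ c ∧ b ≠ c ∧ B = blk S a b c := by
  simp only [Bs, mem_image, mem_filter, mem_product]
  constructor
  · rintro ⟨t, ⟨⟨ha, hb, hc⟩, h1, h2, h3⟩, rfl⟩
    exact ⟨t.1, ha, t.2.1, hb, t.2.2, hc, h1, h2, h3, rfl⟩
  · rintro ⟨a, ha, b, hb, c, hc, h1, h2, h3, rfl⟩
    exact ⟨(a, b, c), ⟨⟨ha, hb, hc⟩, h1, h2, h3⟩, rfl⟩

lemma mem_blk {S : Finset Pt} {a b c z : Pt} : z ∈ blk S a b c ↔ z ∈ S ∧ G a b c z = 0 := by
  simp [blk]

lemma blk_mem {S : Finset Pt} {a b c : Pt} (ha : a ∈ S) (hb : b ∈ S) (hc : c ∈ S)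
    (hab : a ≠ b) (hac : a ≠ c) (hbc : b ≠ c) : blk S a b c ∈ Bs S :=
  mem_Bs.2 ⟨a, ha, b, hb, c, hc, hab, hac, hbc, rfl⟩

lemma eq_blk {S B : Finset Pt} (hB : B ∈ Bs S) {x y z : Pt} (hx : x ∈ B) (hy : y ∈ B)
    (hz : z ∈ B) (hxy : x ≠ y) (hxz : x ≠ z) (hyz : y ≠ z) : B = blk S x y z := by
  obtain ⟨a, _, b, _, c, _, hab, hac, hbc, rfl⟩ := mem_Bs.1 hB
  rw [mem_blk] at hx hy hz
  ext w
  rw [mem_blk, mem_blk, G_basis hab hac hbc hxy hxz hyz hx.2 hy.2 hz.2 w]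

lemma sub_of_Bs {S B : Finset Pt} (hB : B ∈ Bs S) : B ⊆ S := by
  obtain ⟨a, _, b, _, c, _, _, _, _, rfl⟩ := mem_Bs.1 hB
  exact filter_subset _ _

lemma three_of_Bs {S B : Finset Pt} (hB : B ∈ Bs S) : 3 ≤ B.card := by
  obtain ⟨a, ha, b, hb, c, hc, hab, hac, hbc, rfl⟩ := mem_Bs.1 hB
  have : ({a, b, c} : Finset Pt).card = 3 := by
    rw [card_eq_three]; exact ⟨a, b, c, hab, hac, hbc, rfl⟩
  rw [← this]
  apply card_le_card
  intro x hx
  simp only [mem_insert, mem_singleton] at hx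
  rw [mem_blk]
  rcases hx with rfl | rfl | rfl
  · exact ⟨ha, G_self1 _ _ _⟩
  · exact ⟨hb, G_self2 _ _ _⟩
  · exact ⟨hc, G_self3 _ _ _⟩

lemma G_collinear {x y z : Pt} (hxy : x ≠ y) (hxz : x ≠ z) (hyz : y ≠ z) (h : cr x y z = 0)
    (w : Pt) : G x y z w = 0 ↔ cr x y w = 0 := by
  obtain ⟨s, h1, h2⟩ := exists_param hxy h
  have hs0 : s ≠ 0 := by
    rintro rfl
    apply hxz
    ext <;> linarith
  have hs1 : 1 - s ≠ 0 := by
    intro hs
    have : s = 1 := by linarith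
    subst this
    apply hyz
    ext <;> linarith
  have hn := (nq_pos hxy.symm).ne'
  have e : G x y z w = (s * (1 - s) * nq x y) * cr x y w := by
    have e1 : z.1 = x.1 + s * (y.1 - x.1) := by linarith
    have e2 : z.2 = x.2 + s * (y.2 - x.2) := by linarith
    simp only [G, cr, nq, e1, e2]
    ring
  rw [e]
  constructor
  · intro hh
    rcases mul_eq_zero.1 hh with hh | hh
    · exact absurd hh (by positivity)
    · exact hh
  · intro hh; rw [hh, mul_zero]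

lemma exists_third {B : Finset Pt} (h : 3 ≤ B.card) {x y : Pt} :
    ∃ z ∈ B, x ≠ z ∧ y ≠ z := by
  have h1 : ({x, y} : Finset Pt).card < B.card :=
    lt_of_le_of_lt card_le_two (by omega)
  obtain ⟨z, hz, hzn⟩ := exists_mem_notMem_of_card_lt_card h1
  simp only [mem_insert, mem_singleton, not_or] at hzn
  exact ⟨z, hz, Ne.symm hzn.1, Ne.symm hzn.2⟩

/-- trace of the blocks through `p` after inversion about `p` -/
def tr (p : Pt) (B : Finset Pt) : Finset Pt := (B.erase p).image (iv p)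

lemma tr_card {p : Pt} {B : Finset Pt} (hp : p ∈ B) : (tr p B).card + 1 = B.card := by
  unfold tr
  rw [card_image_of_injOn, card_erase_add_one hp]
  intro x hx y hy hxy
  simp only [coe_erase, Set.mem_sdiff, mem_coe, Set.mem_singleton_iff] at hx hy
  exact iv_inj hx.2 hy.2 hxy

lemma tr_blk {S : Finset Pt} {p b c : Pt} (hb : b ≠ p) (hc : c ≠ p) :
    tr p (blk S p b c) = lineOf (tr p S) (iv p b) (iv p c) := by
  ext w
  rw [mem_lineOf]
  simp only [tr, mem_image, mem_erase, mem_blk]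
  constructor
  · rintro ⟨z, ⟨hzp, hzS, hG⟩, rfl⟩
    exact ⟨⟨z, ⟨hzp, hzS⟩, rfl⟩, (cr_iv_zero hb hc hzp).2 hG⟩
  · rintro ⟨⟨z, ⟨hzp, hzS⟩, rfl⟩, hcr⟩
    exact ⟨z, ⟨hzp, hzS, (cr_iv_zero hb hc hzp).1 hcr⟩, rfl⟩

lemma mel_at {S : Finset Pt} (hS : S ∉ Bs S) (h3 : 3 ≤ S.card) {p : Pt} (hp : p ∈ S) :
    3 ≤ ∑ B ∈ Bs S with p ∈ B, (4 - (B.card : ℤ)) := by
  obtain ⟨b, hb, hpb, -⟩ := exists_third (x := p) (y := p) h3
  obtain ⟨c, hc, hpc, hbc⟩ := exists_third (x := p) (y := b) h3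
  have hnc : ∃ a ∈ tr p S, ∃ b ∈ tr p S, ∃ c ∈ tr p S, cr a b c ≠ 0 := by
    by_contra hcon
    push Not at hcon
    apply hS
    have : S = blk S p b c := by
      ext w
      rw [mem_blk]
      refine ⟨fun hw => ⟨hw, ?_⟩, fun h => h.1⟩
      by_cases hwp : w = p
      · subst hwp; exact G_self1 _ _ _
      · rw [← cr_iv_zero hpb.symm hpc.symm hwp]
        apply hcon
        · exact mem_image_of_mem _ (mem_erase.2 ⟨hpb.symm, hb⟩)
        · exact mem_image_of_mem _ (mem_erase.2 ⟨hpc.symm, hc⟩)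
        · exact mem_image_of_mem _ (mem_erase.2 ⟨hwp, hw⟩)
    have hmem := blk_mem hp hb hc hpb hpc hbc
    rw [← this] at hmem
    exact hmem
  have hm := melchior hnc
  have hsum : ∑ B ∈ Bs S with p ∈ B, (4 - (B.card : ℤ)) =
      ∑ L ∈ lines (tr p S), (3 - (L.card : ℤ)) := by
    apply sum_nbij (tr p)
    · intro B hB
      rw [mem_filter] at hB
      obtain ⟨x, hx, hpx, -⟩ := exists_third (x := p) (y := p) (three_of_Bs hB.1)
      obtain ⟨y, hy, hpy, hxy⟩ := exists_third (x := p) (y := x) (three_of_Bs hB.1)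
      rw [eq_blk hB.1 hB.2 hx hy hpx hpy hxy, tr_blk hpx.symm hpy.symm]
      apply lineOf_mem_lines
      · exact mem_image_of_mem _ (mem_erase.2 ⟨hpx.symm, sub_of_Bs hB.1 hx⟩)
      · exact mem_image_of_mem _ (mem_erase.2 ⟨hpy.symm, sub_of_Bs hB.1 hy⟩)
      · intro hh; exact hxy (iv_inj hpx.symm hpy.symm hh)
    · intro B hB B' hB' hh
      simp only [coe_filter, Set.mem_ofPred_eq] at hB hB'
      have key : ∀ B B' : Finset Pt, tr p B = tr p B' → ∀ x ∈ B, x ≠ p → x ∈ B' := by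
        intro B B' hh x hx hxp
        have h1 : iv p x ∈ tr p B' := by
          rw [← hh]; exact mem_image_of_mem _ (mem_erase.2 ⟨hxp, hx⟩)
        simp only [tr, mem_image, mem_erase] at h1
        obtain ⟨y, ⟨hyp, hy⟩, hxy⟩ := h1
        rwa [← iv_inj hyp hxp hxy]
      ext x
      by_cases hxp : x = p
      · subst hxp; simp [hB.2, hB'.2]
      · exact ⟨fun h => key B B' hh x h hxp, fun h => key B' B hh.symm x h hxp⟩
    · intro L hL
      simp only [lines, coe_image, Set.mem_image, mem_coe, mem_offDiag] at hL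
      obtain ⟨⟨b', c'⟩, ⟨hb', hc', hbc'⟩, rfl⟩ := hL
      simp only [tr, mem_image, mem_erase] at hb' hc'
      obtain ⟨x, ⟨hxp, hx⟩, rfl⟩ := hb'
      obtain ⟨y, ⟨hyp, hy⟩, rfl⟩ := hc'
      have hxy : x ≠ y := by rintro rfl; exact hbc' rfl
      refine ⟨blk S p x y, ?_, tr_blk hxp hyp⟩
      simp only [coe_filter, Set.mem_ofPred_eq]
      exact ⟨blk_mem hp hx hy (Ne.symm hxp) (Ne.symm hyp) hxy, mem_blk.2 ⟨hp, G_self1 _ _ _⟩⟩
    · intro B hB
      rw [mem_filter] at hB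
      have := tr_card hB.2
      have : ((tr p B).card : ℤ) + 1 = B.card := by exact_mod_cast this
      linarith
  rw [hsum, sum_sub_distrib, sum_const, nsmul_eq_mul]
  have : ((∑ L ∈ lines (tr p S), L.card + 3 : ℕ) : ℤ) ≤ ((3 * (lines (tr p S)).card : ℕ) : ℤ) := by
    exact_mod_cast hm
  push_cast at this
  linarith

theorem geo {S : Finset Pt} (hS : S ∉ Bs S) (h3 : 3 ≤ S.card) : Geo S (Bs S) (Ls S) where
  sub := fun B hB => sub_of_Bs hB
  three := fun B hB => three_of_Bs hB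
  ex := by
    intro T hT hc
    obtain ⟨a, b, c, hab, hac, hbc, rfl⟩ := card_eq_three.1 hc
    have ha : a ∈ S := hT (by simp)
    have hb : b ∈ S := hT (by simp)
    have hc : c ∈ S := hT (by simp)
    refine ⟨blk S a b c, blk_mem ha hb hc hab hac hbc, ?_⟩
    intro x hx
    simp only [mem_insert, mem_singleton] at hx
    rw [mem_blk]
    rcases hx with rfl | rfl | rfl
    · exact ⟨ha, G_self1 _ _ _⟩
    · exact ⟨hb, G_self2 _ _ _⟩
    · exact ⟨hc, G_self3 _ _ _⟩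
  uniq := by
    intro B hB B' hB' h
    obtain ⟨x, hx, hx'⟩ : ∃ x ∈ B ∩ B', True := by
      obtain ⟨x, hx⟩ := card_pos.1 (show 0 < (B ∩ B').card by omega)
      exact ⟨x, hx, trivial⟩
    obtain ⟨y, hy, hxy, -⟩ := exists_third (x := x) (y := x) h
    obtain ⟨z, hz, hxz, hyz⟩ := exists_third (x := x) (y := y) h
    rw [mem_inter] at hx hy hz
    rw [eq_blk hB hx.1 hy.1 hz.1 hxy hxz hyz, eq_blk hB' hx.2 hy.2 hz.2 hxy hxz hyz]
  Lsub := filter_subset _ _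
  Luniq := by
    intro B hB B' hB' h
    simp only [Ls, mem_filter] at hB hB'
    obtain ⟨x, hx, y, hy, hxy⟩ := one_lt_card.1 (show 1 < (B ∩ B').card by omega)
    rw [mem_inter] at hx hy
    obtain ⟨z, hz, hxz, hyz⟩ := exists_third (x := x) (y := y) (three_of_Bs hB.1)
    obtain ⟨z', hz', hxz', hyz'⟩ := exists_third (x := x) (y := y) (three_of_Bs hB'.1)
    rw [eq_blk hB.1 hx.1 hy.1 hz hxy hxz hyz, eq_blk hB'.1 hx.2 hy.2 hz' hxy hxz' hyz']
    ext w
    rw [mem_blk, mem_blk, G_collinear hxy hxz hyz (hB.2 x hx.1 y hy.1 z hz),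
      G_collinear hxy hxz' hyz' (hB'.2 x hx.2 y hy.2 z' hz')]
  mel := fun p hp => mel_at hS h3 hp

end

end Pool.Agent.H692R3
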