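import Pool.Agent.H692R3.Comb

/-! The weighted counting inequality obtained from a table of multipliers. -/

namespace Pool.Agent.H692R3

open Finset

/-- a table of multipliers -/
structure Cert where
  D : ℤ
  e1 : ℤ
  e2 : ℤ
  e3 : ℤ
  m1 : ℤ
  m2 : ℤ
  p : ℤ
  l1 : ℤ
  l2 : ℤ

/-- weight of a block with `i` points on the base block and `s` points off it -/
def Cert.w (c : Cert) (i s : ℕ) (b : Bool) : ℤ :=
  c.e1 * ((i.choose 2 : ℤ) * s) + c.e2 * (i * (s.choose 2 : ℤ)) + c.e3 * (s.choose 3 : ℤ)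
  + c.m1 * (i * (4 - ((i : ℤ) + s))) + c.m2 * (s * (4 - ((i : ℤ) + s)))
  - c.p * (if i = 2 then (s.choose 2 : ℤ) else 0)
  - c.l1 * (if b = true then ((i + s).choose 2 : ℤ) else 0)
  - c.l2 * (if b = true ∧ i = 2 then (s : ℤ) else 0)

def Cert.rhs (c : Cert) (K r : ℕ) : ℤ :=
  c.e1 * ((K.choose 2 : ℤ) * r) + c.e2 * (K * (r.choose 2 : ℤ)) + c.e3 * (r.choose 3 : ℤ)
  + c.m1 * (K * ((K : ℤ) - 1)) + c.m2 * (3 * r)
  - c.p * ((r.choose 2 : ℤ) * ((K / 2 : ℕ) : ℤ)) - c.l1 * ((K + r).choose 2 : ℤ)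
  - c.l2 * (r * ((K / 2 : ℕ) : ℤ))

variable {α : Type*} [DecidableEq α]

namespace Geo

variable {V : Finset α} {Bs Ls : Finset (Finset α)}

lemma sum_w (h : Geo V Bs Ls) (c : Cert) {B0 : Finset α} (hB0 : B0 ∈ Bs)
    (hm1 : 0 ≤ c.m1) (hm2 : 0 ≤ c.m2) (hp : 0 ≤ c.p) (hl1 : 0 ≤ c.l1) (hl2 : 0 ≤ c.l2)
    {K r : ℕ} (hK : B0.card = K) (hr : V.card = K + r) :
    c.rhs K r + (if B0 ∈ Ls then c.l1 * (K.choose 2 : ℤ) else 0) ≤
      ∑ B ∈ Bs.erase B0, c.w (B ∩ B0).card (B \ B0).card (decide (B ∈ Ls)) := by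
  have hsubV := h.sub B0 hB0
  have hrr : V.card - B0.card = r := by omega
  have hB0s : (B0 \ B0).card = 0 := by simp
  have hB0i : (B0 ∩ B0).card = K := by simp [hK]
  -- S1
  have S1 : ∑ B ∈ Bs.erase B0, (((B ∩ B0).card.choose 2 : ℤ) * (B \ B0).card) =
      (K.choose 2 : ℤ) * r := by
    have := h.sum_triples hsubV (j := 2) (m := 1) rfl
    rw [hrr, hK, Nat.choose_one_right] at this
    simp only [Nat.choose_one_right] at this
    rw [sum_erase _ (by simp)]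
    exact_mod_cast this
  have S2 : ∑ B ∈ Bs.erase B0, (((B ∩ B0).card : ℤ) * ((B \ B0).card.choose 2 : ℤ)) =
      (K : ℤ) * (r.choose 2 : ℤ) := by
    have := h.sum_triples hsubV (j := 1) (m := 2) rfl
    rw [hrr, hK, Nat.choose_one_right] at this
    simp only [Nat.choose_one_right] at this
    rw [sum_erase _ (by simp)]
    exact_mod_cast this
  have S3 : ∑ B ∈ Bs.erase B0, ((B \ B0).card.choose 3 : ℤ) = (r.choose 3 : ℤ) := by
    have := h.sum_triples hsubV (j := 0) (m := 3) rfl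
    rw [hrr, Nat.choose_zero_right, one_mul] at this
    simp only [Nat.choose_zero_right, one_mul] at this
    rw [sum_erase _ (by simp)]
    exact_mod_cast this
  have hcard : ∀ B : Finset α, (B.card : ℤ) = ((B ∩ B0).card : ℤ) + (B \ B0).card := by
    intro B
    have := card_inter_add_card_sdiff B B0
    exact_mod_cast this.symm
  have S4 : (K : ℤ) * ((K : ℤ) - 1) ≤ ∑ B ∈ Bs.erase B0,
      (((B ∩ B0).card : ℤ) * (4 - (((B ∩ B0).card : ℤ) + (B \ B0).card))) := by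
    have := h.mel_sum hsubV
    rw [← add_sum_erase _ _ hB0, hB0i, hK] at this
    have e1 : ∑ B ∈ Bs.erase B0, ((B ∩ B0).card : ℤ) * (4 - (B.card : ℤ)) =
        ∑ B ∈ Bs.erase B0,
          (((B ∩ B0).card : ℤ) * (4 - (((B ∩ B0).card : ℤ) + (B \ B0).card))) := by
      apply sum_congr rfl
      intro B _
      rw [hcard B]
    rw [e1] at this
    linarith
  have S5 : 3 * (r : ℤ) ≤ ∑ B ∈ Bs.erase B0,
      (((B \ B0).card : ℤ) * (4 - (((B ∩ B0).card : ℤ) + (B \ B0).card))) := by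
    have := h.mel_sum (A := V \ B0) sdiff_subset
    rw [card_sdiff_of_subset hsubV, hrr, ← add_sum_erase _ _ hB0] at this
    have e0 : (B0 ∩ (V \ B0)).card = 0 := by
      rw [card_eq_zero]
      ext x; simp only [mem_inter, mem_sdiff, notMem_empty, iff_false]; tauto
    rw [e0, Nat.cast_zero, zero_mul, zero_add] at this
    refine this.trans (le_of_eq (sum_congr rfl ?_))
    intro B hB
    have e1 : B ∩ (V \ B0) = B \ B0 := by
      ext x; simp only [mem_inter, mem_sdiff]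
      constructor
      · rintro ⟨h1, h2, h3⟩; exact ⟨h1, h3⟩
      · rintro ⟨h1, h2⟩; exact ⟨h1, h.sub B (mem_of_mem_erase hB) h1, h2⟩
    rw [e1, hcard B]
  have S6 : ∑ B ∈ Bs.erase B0, (if (B ∩ B0).card = 2 then ((B \ B0).card.choose 2 : ℤ) else 0) ≤
      (r.choose 2 : ℤ) * ((K / 2 : ℕ) : ℤ) := by
    have := h.pair_bound hB0
    rw [hrr, hK] at this
    rw [sum_erase _ (by simp)]
    exact_mod_cast this
  have hLfil : (Bs.erase B0).filter (fun B => B ∈ Ls) = Ls.erase B0 := by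
    ext B
    simp only [mem_filter, mem_erase]
    constructor
    · rintro ⟨⟨h1, h2⟩, h3⟩; exact ⟨h1, h3⟩
    · rintro ⟨h1, h2⟩; exact ⟨⟨h1, h.Lsub h2⟩, h2⟩
  have S7 : ∑ B ∈ Bs.erase B0, (if decide (B ∈ Ls) = true then
      (((B ∩ B0).card + (B \ B0).card).choose 2 : ℤ) else 0) ≤
      ((K + r).choose 2 : ℤ) - (if B0 ∈ Ls then (K.choose 2 : ℤ) else 0) := by
    simp only [decide_eq_true_eq]
    rw [← sum_filter, hLfil]
    have h1 := h.line_pairs
    rw [hr] at h1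
    have h2 : ∀ B ∈ Ls.erase B0, ((((B ∩ B0).card + (B \ B0).card).choose 2 : ℕ) : ℤ) =
        ((B.card.choose 2 : ℕ) : ℤ) := by
      intro B _
      rw [card_inter_add_card_sdiff]
    rw [sum_congr rfl h2]
    by_cases hL : B0 ∈ Ls
    · rw [if_pos hL]
      rw [← add_sum_erase _ _ hL, hK] at h1
      have h3 : ((∑ B ∈ Ls.erase B0, B.card.choose 2 : ℕ) : ℤ) =
          ∑ B ∈ Ls.erase B0, ((B.card.choose 2 : ℕ) : ℤ) := by push_cast; rfl
      rw [← h3]
      have h4 : ((K.choose 2 + ∑ B ∈ Ls.erase B0, B.card.choose 2 : ℕ) : ℤ) ≤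
        (((K + r).choose 2 : ℕ) : ℤ) := by exact_mod_cast h1
      push_cast at h4 ⊢
      linarith
    · rw [if_neg hL, sub_zero]
      rw [erase_eq_of_notMem hL]
      exact_mod_cast h1
  have S8 : ∑ B ∈ Bs.erase B0, (if decide (B ∈ Ls) = true ∧ (B ∩ B0).card = 2 then
      ((B \ B0).card : ℤ) else 0) ≤ (r : ℤ) * ((K / 2 : ℕ) : ℤ) := by
    simp only [decide_eq_true_eq]
    have h0 : ∀ B ∈ Bs.erase B0, (if B ∈ Ls ∧ (B ∩ B0).card = 2 then
        ((B \ B0).card : ℤ) else 0) = if B ∈ Ls then (if (B ∩ B0).card = 2 then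
        ((B \ B0).card : ℤ) else 0) else 0 := by
      intro B _
      by_cases h1 : B ∈ Ls <;> by_cases h2 : (B ∩ B0).card = 2 <;> simp [h1, h2]
    rw [sum_congr rfl h0, ← sum_filter, hLfil]
    rw [sum_erase _ (by simp)]
    have := h.line_two hB0
    rw [hrr, hK] at this
    exact_mod_cast this
  -- combine
  have hsum : ∑ B ∈ Bs.erase B0, c.w (B ∩ B0).card (B \ B0).card (decide (B ∈ Ls)) =
      c.e1 * ∑ B ∈ Bs.erase B0, (((B ∩ B0).card.choose 2 : ℤ) * (B \ B0).card)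
      + c.e2 * ∑ B ∈ Bs.erase B0, (((B ∩ B0).card : ℤ) * ((B \ B0).card.choose 2 : ℤ))
      + c.e3 * ∑ B ∈ Bs.erase B0, ((B \ B0).card.choose 3 : ℤ)
      + c.m1 * ∑ B ∈ Bs.erase B0,
        (((B ∩ B0).card : ℤ) * (4 - (((B ∩ B0).card : ℤ) + (B \ B0).card)))
      + c.m2 * ∑ B ∈ Bs.erase B0,
        (((B \ B0).card : ℤ) * (4 - (((B ∩ B0).card : ℤ) + (B \ B0).card)))
      - c.p * ∑ B ∈ Bs.erase B0,
        (if (B ∩ B0).card = 2 then ((B \ B0).card.choose 2 : ℤ) else 0)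
      - c.l1 * ∑ B ∈ Bs.erase B0, (if decide (B ∈ Ls) = true then
        (((B ∩ B0).card + (B \ B0).card).choose 2 : ℤ) else 0)
      - c.l2 * ∑ B ∈ Bs.erase B0, (if decide (B ∈ Ls) = true ∧ (B ∩ B0).card = 2 then
        ((B \ B0).card : ℤ) else 0) := by
    simp only [mul_sum, ← sum_add_distrib, ← sum_sub_distrib]
    rfl
  rw [hsum, S1, S2, S3]
  have T4 := mul_le_mul_of_nonneg_left S4 hm1
  have T5 := mul_le_mul_of_nonneg_left S5 hm2
  have T6 := mul_le_mul_of_nonneg_left S6 hp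
  have T7 := mul_le_mul_of_nonneg_left S7 hl1
  have T8 := mul_le_mul_of_nonneg_left S8 hl2
  unfold Cert.rhs
  by_cases hL : B0 ∈ Ls
  · rw [if_pos hL] at T7 ⊢
    linarith
  · rw [if_neg hL] at T7 ⊢
    linarith

/-- the bound when the base block is a circle -/
theorem key_circle (h : Geo V Bs Ls) (c : Cert) {B0 : Finset α} (hB0 : B0 ∈ Bs) (hL : B0 ∉ Ls)
    (hm1 : 0 ≤ c.m1) (hm2 : 0 ≤ c.m2) (hp : 0 ≤ c.p) (hl1 : 0 ≤ c.l1) (hl2 : 0 ≤ c.l2)
    {K r : ℕ} (hK : B0.card = K) (hr : V.card = K + r) (hmax : ∀ B ∈ Bs, B.card ≤ K)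
    (hc : ∀ i s, i ≤ 2 → 3 ≤ i + s → i + s ≤ K → c.w i s false ≤ c.D)
    (hl : ∀ i s, i ≤ 2 → 3 ≤ i + s → i + s ≤ K → c.w i s true ≤ 0) :
    c.rhs K r ≤ c.D * (((Bs \ Ls).card : ℤ) - 1) := by
  have h1 := h.sum_w c hB0 hm1 hm2 hp hl1 hl2 hK hr
  rw [if_neg hL, add_zero] at h1
  refine h1.trans ?_
  have h2 : ∀ B ∈ Bs.erase B0, c.w (B ∩ B0).card (B \ B0).card (decide (B ∈ Ls)) ≤
      if B ∈ Ls then 0 else c.D := by
    intro B hB
    have hBs := mem_of_mem_erase hB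
    have hne := ne_of_mem_erase hB
    have hi := h.inter_le hBs hB0 hne
    have hs := card_inter_add_card_sdiff B B0
    have h3 := h.three B hBs
    have h4 := hmax B hBs
    by_cases hBL : B ∈ Ls
    · simp only [hBL, decide_true, if_true]
      exact hl _ _ hi (by omega) (by omega)
    · simp only [hBL, decide_false, if_false]
      exact hc _ _ hi (by omega) (by omega)
  refine (sum_le_sum h2).trans (le_of_eq ?_)
  have h3 : ∑ B ∈ Bs.erase B0, (if B ∈ Ls then (0 : ℤ) else c.D) =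
      ∑ B ∈ (Bs \ Ls).erase B0, c.D := by
    have : (Bs \ Ls).erase B0 = (Bs.erase B0).filter (fun B => B ∉ Ls) := by
      ext B; simp only [mem_erase, mem_sdiff, mem_filter]; tauto
    rw [this, sum_filter]
    apply sum_congr rfl
    intro B _
    by_cases hBL : B ∈ Ls <;> simp [hBL]
  rw [h3, sum_const, card_erase_of_mem (mem_sdiff.2 ⟨hB0, hL⟩), nsmul_eq_mul, mul_comm]
  have hpos : 1 ≤ (Bs \ Ls).card := card_pos.2 ⟨B0, mem_sdiff.2 ⟨hB0, hL⟩⟩
  push_cast [Nat.cast_sub hpos]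
  ring

/-- the bound when the base block is a line -/
theorem key_line (h : Geo V Bs Ls) (c : Cert) {B0 : Finset α} (hL : B0 ∈ Ls)
    (hm1 : 0 ≤ c.m1) (hm2 : 0 ≤ c.m2) (hp : 0 ≤ c.p) (hl1 : 0 ≤ c.l1) (hl2 : 0 ≤ c.l2)
    {K r : ℕ} (hK : B0.card = K) (hr : V.card = K + r) (hmax : ∀ B ∈ Bs, B.card ≤ K)
    (hc : ∀ i s, i ≤ 2 → 3 ≤ i + s → i + s ≤ K → c.w i s false ≤ c.D)
    (hl : ∀ i s, i ≤ 1 → 3 ≤ i + s → i + s ≤ K → c.w i s true ≤ 0) :
    c.rhs K r + c.l1 * (K.choose 2 : ℤ) ≤ c.D * ((Bs \ Ls).card : ℤ) := by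
  have hB0 := h.Lsub hL
  have h1 := h.sum_w c hB0 hm1 hm2 hp hl1 hl2 hK hr
  rw [if_pos hL] at h1
  refine h1.trans ?_
  have h2 : ∀ B ∈ Bs.erase B0, c.w (B ∩ B0).card (B \ B0).card (decide (B ∈ Ls)) ≤
      if B ∈ Ls then 0 else c.D := by
    intro B hB
    have hBs := mem_of_mem_erase hB
    have hne := ne_of_mem_erase hB
    have hi := h.inter_le hBs hB0 hne
    have hs := card_inter_add_card_sdiff B B0
    have h3 := h.three B hBs
    have h4 := hmax B hBs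
    by_cases hBL : B ∈ Ls
    · have hi' := h.Linter_le hBL hL hne
      simp only [hBL, decide_true, if_true]
      exact hl _ _ hi' (by omega) (by omega)
    · simp only [hBL, decide_false, if_false]
      exact hc _ _ hi (by omega) (by omega)
  refine (sum_le_sum h2).trans (le_of_eq ?_)
  have h3 : ∑ B ∈ Bs.erase B0, (if B ∈ Ls then (0 : ℤ) else c.D) =
      ∑ B ∈ (Bs \ Ls), c.D := by
    have : (Bs \ Ls) = (Bs.erase B0).filter (fun B => B ∉ Ls) := by
      ext B; simp only [mem_erase, mem_sdiff, mem_filter]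
      constructor
      · rintro ⟨h1, h2⟩
        exact ⟨⟨fun hh => h2 (hh ▸ hL), h1⟩, h2⟩
      · rintro ⟨⟨h1, h2⟩, h3⟩; exact ⟨h2, h3⟩
    rw [this, sum_filter]
    apply sum_congr rfl
    intro B _
    by_cases hBL : B ∈ Ls <;> simp [hBL]
  rw [h3, sum_const, nsmul_eq_mul, mul_comm]

end Geo

end Pool.Agent.H692R3
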