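import Pool.Agent.H692R3.Circ

/-! The extremal configuration: points on a circle in antipodal pairs, and the centre. -/

namespace Pool.Agent.H692R3

open Finset Pool.Agent.Helper543.Melchior

noncomputable section

open scoped Classical

/-- rational points of the upper half of the unit circle -/
def vv (j : ℕ) : Pt :=
  ((1 - ((j : ℝ) + 1) ^ 2) / (1 + ((j : ℝ) + 1) ^ 2), 2 * ((j : ℝ) + 1) / (1 + ((j : ℝ) + 1) ^ 2))

lemma vv_circ (j : ℕ) : (vv j).1 ^ 2 + (vv j).2 ^ 2 = 1 := by
  have : (1 + ((j : ℝ) + 1) ^ 2) ≠ 0 := by positivity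
  simp only [vv]
  field_simp
  ring

lemma vv_pos (j : ℕ) : 0 < (vv j).2 := by
  simp only [vv]
  positivity

lemma vv_inj : Function.Injective vv := by
  intro i j h
  have h1 : (vv i).1 = (vv j).1 := by rw [h]
  simp only [vv] at h1
  have hi : (1 + ((i : ℝ) + 1) ^ 2) ≠ 0 := by positivity
  have hj : (1 + ((j : ℝ) + 1) ^ 2) ≠ 0 := by positivity
  rw [div_eq_div_iff hi hj] at h1
  have h2 : ((i : ℝ) + 1) ^ 2 = ((j : ℝ) + 1) ^ 2 := by linarith
  have h3 : (i : ℝ) + 1 = (j : ℝ) + 1 := by
    have hi0 : (0 : ℝ) ≤ (i : ℝ) + 1 := by positivity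
    have hj0 : (0 : ℝ) ≤ (j : ℝ) + 1 := by positivity
    nlinarith [sq_nonneg ((i : ℝ) - j)]
  have : (i : ℝ) = j := by linarith
  exact_mod_cast this

/-- the points on the circle -/
def QQ (h e : ℕ) : Finset Pt := (range (h + e)).image vv ∪ (range h).image (fun j => - vv j)

lemma QQ_circ {h e : ℕ} {x : Pt} (hx : x ∈ QQ h e) : pw 0 1 x = 0 := by
  simp only [QQ, mem_union, mem_image] at hx
  rcases hx with ⟨j, _, rfl⟩ | ⟨j, _, rfl⟩
  · have := vv_circ j
    simp only [pw, Prod.fst_zero, Prod.snd_zero]
    linarith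
  · have := vv_circ j
    simp only [pw, Prod.fst_zero, Prod.snd_zero, Prod.fst_neg, Prod.snd_neg]
    linarith

lemma QQ_card (h e : ℕ) : (QQ h e).card = 2 * h + e := by
  unfold QQ
  rw [card_union_of_disjoint, card_image_of_injective _ vv_inj, card_image_of_injective,
    card_range, card_range]
  · ring
  · intro i j hij
    exact vv_inj (neg_injective hij)
  · rw [disjoint_left]
    intro x hx hx'
    simp only [mem_image] at hx hx'
    obtain ⟨i, _, rfl⟩ := hx
    obtain ⟨j, _, hj⟩ := hx'
    have h1 := vv_pos i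
    have h2 := vv_pos j
    have h3 : (- vv j).2 = (vv i).2 := by rw [hj]
    simp only [Prod.snd_neg] at h3
    linarith

lemma zero_notMem_QQ (h e : ℕ) : (0 : Pt) ∉ QQ h e := by
  intro hx
  have := QQ_circ hx
  simp [pw] at this

/-- the extremal set -/
def PP (h e : ℕ) : Finset Plane := (insert 0 (QQ h e)).image ofPt

lemma ofPt_inj : Function.Injective ofPt := by
  intro x y h
  have := congrArg toPt h
  rwa [toPt_ofPt, toPt_ofPt] at this

lemma img_PP (h e : ℕ) : img (PP h e) = insert 0 (QQ h e) := by
  ext z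
  rw [mem_img, PP, mem_image]
  constructor
  · rintro ⟨w, hw, hwz⟩
    rwa [← ofPt_inj hwz]
  · intro hz
    exact ⟨z, hz, rfl⟩

lemma PP_card (h e : ℕ) : (PP h e).card = 2 * h + e + 1 := by
  rw [PP, card_image_of_injective _ ofPt_inj, card_insert_of_notMem (zero_notMem_QQ h e), QQ_card]

/-- block attached to a pair of points of the circle -/
def Fb (S : Finset Pt) (u : Finset Pt) : Finset Pt :=
  S.filter (fun w => ∀ x ∈ u, ∀ y ∈ u, x ≠ y → G 0 x y w = 0)

lemma Fb_pair {S : Finset Pt} {x y : Pt} (hxy : x ≠ y) : Fb S {x, y} = blk S 0 x y := by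
  ext w
  simp only [Fb, blk, mem_filter, mem_insert, mem_singleton]
  constructor
  · rintro ⟨h1, h2⟩
    exact ⟨h1, h2 x (Or.inl rfl) y (Or.inr rfl) hxy⟩
  · rintro ⟨h1, h2⟩
    refine ⟨h1, ?_⟩
    rintro a (rfl | rfl) b (rfl | rfl) hab
    · exact absurd rfl hab
    · exact h2
    · rw [G_swap23, h2, neg_zero]
    · exact absurd rfl hab

lemma blocks_sub (h e : ℕ) :
    Bs (insert 0 (QQ h e)) \ Ls (insert 0 (QQ h e)) ⊆
      insert (QQ h e) ((((QQ h e).powersetCard 2).filter
        (fun u => ¬ ∃ x ∈ u, -x ∈ u)).image (Fb (insert 0 (QQ h e)))) := by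
  intro B hB
  rw [mem_sdiff] at hB
  obtain ⟨hB, hL⟩ := hB
  have hsub := sub_of_Bs hB
  have hthree := three_of_Bs hB
  rw [mem_insert]
  by_cases h0 : (0 : Pt) ∈ B
  · right
    obtain ⟨x, hx, h0x, -⟩ := exists_third (x := (0 : Pt)) (y := 0) hthree
    obtain ⟨y, hy, h0y, hxy⟩ := exists_third (x := (0 : Pt)) (y := x) hthree
    have hBe := eq_blk hB h0 hx hy h0x h0y hxy
    have hxQ : x ∈ QQ h e := by
      have := hsub hx
      rw [mem_insert] at this
      exact this.resolve_left (Ne.symm h0x)
    have hyQ : y ∈ QQ h e := by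
      have := hsub hy
      rw [mem_insert] at this
      exact this.resolve_left (Ne.symm h0y)
    rw [mem_image]
    refine ⟨{x, y}, ?_, ?_⟩
    · rw [mem_filter, mem_powersetCard]
      refine ⟨⟨?_, card_pair hxy⟩, ?_⟩
      · intro z hz
        simp only [mem_insert, mem_singleton] at hz
        rcases hz with rfl | rfl
        · exact hxQ
        · exact hyQ
      · -- antipodal pairs give lines
        intro hanti
        apply hL
        have hxy' : y = -x := by
          obtain ⟨z, hz, hz'⟩ := hanti
          simp only [mem_insert, mem_singleton] at hz hz'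
          rcases hz with rfl | rfl
          · rcases hz' with h1 | h1
            · exfalso
              apply h0x
              have : z = 0 := by
                have h2 : (2 : ℝ) • z = 0 := by
                  rw [two_smul]
                  nth_rewrite 1 [← h1]
                  simp
                simpa using h2
              exact this.symm
            · exact h1.symm
          · rcases hz' with h1 | h1
            · rw [← h1, neg_neg]
            · exfalso
              apply h0y
              have : z = 0 := by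
                have h2 : (2 : ℝ) • z = 0 := by
                  rw [two_smul]
                  nth_rewrite 1 [← h1]
                  simp
                simpa using h2
              exact this.symm
        have hcr0 : cr 0 x y = 0 := by
          rw [hxy']
          simp [cr]
          ring
        simp only [Ls, mem_filter]
        refine ⟨hB, fun a ha b hb c hc => ?_⟩
        have hall : ∀ w ∈ B, cr 0 x w = 0 := by
          intro w hw
          rw [hBe, mem_blk] at hw
          exact (G_collinear h0x h0y hxy hcr0 w).1 hw.2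
        have ha' := hall a ha
        have hb' := hall b hb
        have hc' := hall c hc
        by_cases hab : a = b
        · subst hab; simp [cr]
        · exact (cr_line_iff h0x ha' hb' hab).2 hc'
    · rw [Fb_pair hxy, ← hBe]
  · left
    have hBQ : B ⊆ QQ h e := by
      intro z hz
      have := hsub hz
      rw [mem_insert] at this
      exact this.resolve_left (fun hh => h0 (hh ▸ hz))
    obtain ⟨x, hx⟩ := card_pos.1 (show 0 < B.card by omega)
    obtain ⟨y, hy, hxy, -⟩ := exists_third (x := x) (y := x) hthree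
    obtain ⟨z, hz, hxz, hyz⟩ := exists_third (x := x) (y := y) hthree
    have hBe := eq_blk hB hx hy hz hxy hxz hyz
    have hi := circ_iff hxy hxz hyz (QQ_circ (hBQ hx)) (QQ_circ (hBQ hy)) (QQ_circ (hBQ hz))
    apply subset_antisymm hBQ
    intro w hw
    rw [hBe, mem_blk, mem_insert]
    exact ⟨Or.inr hw, (hi w).1 (QQ_circ hw)⟩

lemma anti_count (h e : ℕ) :
    h ≤ (((QQ h e).powersetCard 2).filter (fun u => ∃ x ∈ u, -x ∈ u)).card := by
  have hinj : Set.InjOn (fun j => ({vv j, - vv j} : Finset Pt)) (range h : Set ℕ) := by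
    intro i _ j _ hij
    simp only at hij
    have h1 : vv i ∈ ({vv j, - vv j} : Finset Pt) := by rw [← hij]; simp
    simp only [mem_insert, mem_singleton] at h1
    rcases h1 with h1 | h1
    · exact vv_inj h1
    · exfalso
      have h2 := vv_pos i
      have h3 := vv_pos j
      rw [h1] at h2
      simp only [Prod.snd_neg] at h2
      linarith
  have h1 := card_image_of_injOn hinj
  rw [card_range] at h1
  refine h1.symm.le.trans (card_le_card ?_)
  intro u hu
  rw [mem_image] at hu
  obtain ⟨j, hj, rfl⟩ := hu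
  rw [mem_range] at hj
  have hne : vv j ≠ - vv j := by
    intro hh
    have h2 := vv_pos j
    have h3 : (vv j).2 = (- vv j).2 := by rw [← hh]
    simp only [Prod.snd_neg] at h3
    linarith
  rw [mem_filter, mem_powersetCard]
  refine ⟨⟨?_, card_pair hne⟩, ⟨vv j, by simp, by simp⟩⟩
  intro x hx
  simp only [mem_insert, mem_singleton] at hx
  simp only [QQ, mem_union, mem_image, mem_range]
  rcases hx with rfl | rfl
  · exact Or.inl ⟨j, by omega, rfl⟩
  · exact Or.inr ⟨j, hj, rfl⟩

lemma count_PP (h e : ℕ) :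
    circleCount (PP h e) + h ≤ (2 * h + e).choose 2 + 1 := by
  rw [circleCount_eq, img_PP]
  have h1 := card_le_card (blocks_sub h e)
  have h2 := card_insert_le (QQ h e) ((((QQ h e).powersetCard 2).filter
        (fun u => ¬ ∃ x ∈ u, -x ∈ u)).image (Fb (insert 0 (QQ h e))))
  have h4 : ((((QQ h e).powersetCard 2).filter
        (fun u => ¬ ∃ x ∈ u, -x ∈ u)).image (Fb (insert 0 (QQ h e)))).card ≤ _ := card_image_le
  have h5 := Finset.card_filter_add_card_filter_not (s := (QQ h e).powersetCard 2)
    (fun u => ∃ x ∈ u, -x ∈ u)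
  rw [card_powersetCard, QQ_card] at h5
  have h6 := anti_count h e
  omega

lemma PP_admissible (h e : ℕ) (h3 : 3 ≤ 2 * h + e) : Admissible (PP h e) := by
  have hc : 3 ≤ (QQ h e).card := by rw [QQ_card]; exact h3
  obtain ⟨x, hx⟩ := card_pos.1 (show 0 < (QQ h e).card by omega)
  obtain ⟨y, hy, hxy, -⟩ := exists_third (x := x) (y := x) hc
  obtain ⟨z, hz, hxz, hyz⟩ := exists_third (x := x) (y := y) hc
  have hx' := QQ_circ hx
  have hy' := QQ_circ hy
  have hz' := QQ_circ hz
  have hmem : ∀ w ∈ QQ h e, ofPt w ∈ (PP h e : Set Plane) := by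
    intro w hw
    rw [mem_coe, PP, mem_image]
    exact ⟨w, mem_insert_of_mem hw, rfl⟩
  constructor
  · intro hcol
    apply circ_cr hxy hxz hyz hx' hy' hz'
    rw [collinear_iff_of_mem (hmem x hx)] at hcol
    obtain ⟨v, hv⟩ := hcol
    obtain ⟨s, hs⟩ := hv _ (hmem y hy)
    obtain ⟨t, ht⟩ := hv _ (hmem z hz)
    have hs' := congrArg toPt hs
    have ht' := congrArg toPt ht
    rw [toPt_ofPt] at hs' ht'
    simp only [toPt, ofPt, vadd_eq_add, PiLp.add_apply, PiLp.smul_apply, smul_eq_mul] at hs' ht'
    have e1 : y.1 = s * v 0 + x.1 := by rw [hs']; simp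
    have e2 : y.2 = s * v 1 + x.2 := by rw [hs']; simp
    have e3 : z.1 = t * v 0 + x.1 := by rw [ht']; simp
    have e4 : z.2 = t * v 1 + x.2 := by rw [ht']; simp
    simp only [cr, e1, e2, e3, e4]
    ring
  · rintro ⟨o, r, hr, hsub⟩
    have hon : ∀ w ∈ insert 0 (QQ h e), pw (toPt o) r w = 0 := by
      intro w hw
      have h1 : ofPt w ∈ Metric.sphere o r := by
        apply hsub
        rw [mem_coe, PP, mem_image]
        exact ⟨w, hw, rfl⟩
      rw [mem_sphere_pw hr, toPt_ofPt] at h1
      exact h1
    have h1 := (circ_iff hxy hxz hyz (hon x (mem_insert_of_mem hx)) (hon y (mem_insert_of_mem hy))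
      (hon z (mem_insert_of_mem hz)) 0).1 (hon 0 (mem_insert_self _ _))
    have h2 := (circ_iff hxy hxz hyz hx' hy' hz' 0).2 h1
    simp [pw] at h2

theorem minCircles_eq {n : ℕ} (hn : 18 ≤ n) :
    minCircles n = (n - 1).choose 2 + 1 - (n - 1) / 2 := by
  obtain ⟨h, e, hhe⟩ : ∃ h e : ℕ, n - 1 = 2 * h + e ∧ h = (n - 1) / 2 :=
    ⟨(n - 1) / 2, (n - 1) % 2, by omega, rfl⟩
  have hcard : (PP h e).card = n := by rw [PP_card]; omega
  have hadm := PP_admissible h e (by omega)
  have hup := count_PP h e
  have hlow := lower_bound hadm (by omega)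
  rw [hcard] at hlow
  have hmem : circleCount (PP h e) ∈ {k | ∃ P : Finset Plane, P.card = n ∧ Admissible P ∧
      circleCount P = k} := ⟨PP h e, hcard, hadm, rfl⟩
  apply le_antisymm
  · refine (Nat.sInf_le hmem).trans ?_
    rw [← hhe.1] at hup
    omega
  · apply le_csInf ⟨_, hmem⟩
    rintro k ⟨P, hP, hadm', rfl⟩
    have := lower_bound hadm' (by omega)
    rw [hP] at this
    omega

end

end Pool.Agent.H692R3
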